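import Pool.Agent.Lib.MP_1cf7f7_al.All.Fil

/-! Words with independent degrees form a code; consequences for free algebras. -/

namespace Pool.Agent.Lib.MP_1cf7f7_al.All

open MonoidAlgebra

noncomputable section

variable {k : Type} [Field k] {L I : Type}

/-- The letter-count vectors of the words `w i`, `i ∈ S`, are linearly independent. -/
def Indep (S : Finset I) (w : I → FreeMonoid L) : Prop :=
  ∀ c : I → ℚ, (∀ e : L → ℚ, ∑ i ∈ S, c i * dg e (w i) = 0) → ∀ i ∈ S, c i = 0

theorem Indep.ne_one {S : Finset I} {w : I → FreeMonoid L} (h : Indep S w) {i : I} (hi : i ∈ S) :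
    w i ≠ 1 := by
  classical
  intro h1
  have := h (Pi.single i 1) (fun e => by
    rw [Finset.sum_eq_single i (fun j _ hj => by simp [hj]) (fun h' => absurd hi h')]
    simp [h1]) i hi
  simp at this

theorem code_step [DecidableEq I] {S : Finset I} {w : I → FreeMonoid L} (h : Indep S w) {i j : I}
    (hi : i ∈ S) (hj : j ∈ S) (hij : i ≠ j) {r : FreeMonoid L} (hr : w j = w i * r)
    (ih : ∀ w' : I → FreeMonoid L, ∑ i ∈ S, (w' i).length < ∑ i ∈ S, (w i).length →
      Indep S w' → ∀ u ∈ Ov (S : Set I), ∀ v ∈ Ov (S : Set I),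
        FreeMonoid.lift w' u = FreeMonoid.lift w' v → u = v)
    {u v : FreeMonoid I} (hu : u ∈ Ov (S : Set I)) (hv : v ∈ Ov (S : Set I))
    (huv : FreeMonoid.lift w u = r * FreeMonoid.lift w v) : False := by
  let w' : I → FreeMonoid L := Function.update w j r
  let θ : I → FreeMonoid I := Function.update FreeMonoid.of j (FreeMonoid.of i * FreeMonoid.of j)
  have hθ : ∀ z, FreeMonoid.lift w' (FreeMonoid.lift θ z) = FreeMonoid.lift w z := by
    intro z
    induction z using FreeMonoid.inductionOn' with
    | one => simp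
    | of_mul l z ihz =>
      simp only [map_mul, FreeMonoid.lift_eval_of, ihz]
      congr 1
      by_cases hl : l = j
      · subst hl
        simp [θ, w', hij, hr]
      · simp [θ, w', hl]
  have hO : ∀ z ∈ Ov (S : Set I), FreeMonoid.lift θ z ∈ Ov (S : Set I) := by
    refine Ov_ind (by simpa using Ov_one _) ?_
    intro l hl z _ ihz
    simp only [map_mul, FreeMonoid.lift_eval_of]
    refine Ov_mul.2 ⟨?_, ihz⟩
    by_cases hl' : l = j
    · subst hl'
      simpa [θ] using Ov_mul.2 ⟨Ov_of.2 hi, Ov_of.2 hj⟩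
    · simpa [θ, hl'] using Ov_of.2 hl
  have hlen : ∑ i ∈ S, (w' i).length < ∑ i ∈ S, (w i).length := by
    refine Finset.sum_lt_sum (fun l _ => ?_) ⟨j, hj, ?_⟩
    · by_cases hl : l = j
      · subst hl
        simp [w', hr]
      · simp [w', hl]
    · have : (w i).length ≠ 0 := fun h0 => h.ne_one hi (FreeMonoid.length_eq_zero.1 h0)
      simp only [w', Function.update_self, hr, FreeMonoid.length_mul]
      omega
  have hind : Indep S w' := by
    intro c hc
    have h2 := h (fun l => c l - if l = i then c j else 0) (fun e => by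
      have h3 := hc e
      have h4 : ∀ l ∈ S, c l * dg e (w' l) =
          c l * dg e (w l) - if l = j then c j * dg e (w i) else 0 := by
        intro l _
        by_cases hl : l = j
        · subst hl
          simp [w', hr]
          ring
        · simp [w', hl]
      rw [Finset.sum_congr rfl h4, Finset.sum_sub_distrib] at h3
      simp only [sub_mul, ite_mul, zero_mul, Finset.sum_sub_distrib]
      simp only [Finset.sum_ite_eq', hi, hj, if_true] at h3 ⊢
      exact h3)
    have hcj : c j = 0 := by simpa [hij.symm] using h2 j hj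
    intro l hl
    simpa [hcj] using h2 l hl
  have key := ih w' hlen hind _ (hO u hu) (FreeMonoid.of j * FreeMonoid.lift θ v)
    (Ov_mul.2 ⟨Ov_of.2 hj, hO v hv⟩) (by simp [hθ, huv, w'])
  have key2 := congrArg (fun z => (FreeMonoid.toList z).head?) key
  induction u using FreeMonoid.inductionOn' with
  | one => simp at key2
  | of_mul l u _ =>
    by_cases hl : l = j
    · subst hl
      simp [θ, hij] at key2
    · simp [θ, hl] at key2

theorem code (S : Finset I) (n : ℕ) : ∀ w : I → FreeMonoid L, ∑ i ∈ S, (w i).length = n →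
    Indep S w → ∀ u ∈ Ov (S : Set I), ∀ v ∈ Ov (S : Set I),
      FreeMonoid.lift w u = FreeMonoid.lift w v → u = v := by
  classical
  induction n using Nat.strong_induction_on with
  | _ n ihn =>
  intro w hn h
  have ih : ∀ w' : I → FreeMonoid L, ∑ i ∈ S, (w' i).length < ∑ i ∈ S, (w i).length →
      Indep S w' → ∀ u ∈ Ov (S : Set I), ∀ v ∈ Ov (S : Set I),
        FreeMonoid.lift w' u = FreeMonoid.lift w' v → u = v :=
    fun w' hw' => ihn _ (hn ▸ hw') w' rfl
  have hne : ∀ i ∈ S, ∀ z : FreeMonoid L, w i * z ≠ 1 := fun i hi z hz =>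
    h.ne_one hi (FreeMonoid.length_eq_zero.1 (by
      have := congrArg FreeMonoid.length hz
      simp only [FreeMonoid.length_mul, FreeMonoid.length_one] at this
      omega))
  intro u
  induction u using FreeMonoid.inductionOn' with
  | one =>
    intro _ v hv huv
    induction v using FreeMonoid.inductionOn' with
    | one => rfl
    | of_mul j v _ => exact absurd huv.symm (by simpa using hne j (Ov_of.1 (Ov_mul.1 hv).1) _)
  | of_mul i u ihu =>
    intro hu v hv huv
    have hi : i ∈ S := Ov_of.1 (Ov_mul.1 hu).1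
    induction v using FreeMonoid.inductionOn' with
    | one => exact absurd huv (by simpa using hne i hi _)
    | of_mul j v _ =>
      have hj : j ∈ S := Ov_of.1 (Ov_mul.1 hv).1
      simp only [map_mul, FreeMonoid.lift_eval_of] at huv
      by_cases hij : i = j
      · subst hij
        rw [ihu (Ov_mul.1 hu).2 v (Ov_mul.1 hv).2 (mul_left_cancel huv)]
      · exfalso
        have h2 := congrArg FreeMonoid.toList huv
        simp only [FreeMonoid.toList_mul] at h2
        rcases List.append_eq_append_iff.1 h2 with ⟨r, h3, h4⟩ | ⟨r, h3, h4⟩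
        · exact code_step h hi hj hij (r := FreeMonoid.ofList r)
            (FreeMonoid.toList.injective (by simpa using h3)) ih (Ov_mul.1 hu).2 (Ov_mul.1 hv).2
            (FreeMonoid.toList.injective (by simpa using h4))
        · exact code_step h hj hi (Ne.symm hij) (r := FreeMonoid.ofList r)
            (FreeMonoid.toList.injective (by simpa using h3)) ih (Ov_mul.1 hv).2 (Ov_mul.1 hu).2
            (FreeMonoid.toList.injective (by simpa using h4))

/-- Words, written additively, to be ordered by length and then lexicographically. -/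
def SL (L : Type) : Type := Additive (FreeMonoid L)

instance : AddMonoid (SL L) := inferInstanceAs (AddMonoid (Additive (FreeMonoid L)))

/-- The list of letters. -/
def SL.ls (u : SL L) : List L := FreeMonoid.toList (Additive.toMul (α := FreeMonoid L) u)

theorem SL.ls_add (u v : SL L) : (u + v).ls = u.ls ++ v.ls := rfl

theorem SL.ls_inj {u v : SL L} (h : u.ls = v.ls) : u = v := h

instance [LinearOrder L] : LinearOrder (SL L) :=
  LinearOrder.lift' (fun u : SL L => toLex (u.ls.length, u.ls))
    fun _ _ h => SL.ls_inj (congrArg (fun z => (ofLex z).2) h)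

theorem SL.lt_iff [LinearOrder L] {u v : SL L} : u < v ↔ u.ls.length < v.ls.length ∨
    u.ls.length = v.ls.length ∧ List.Lex (· < ·) u.ls v.ls :=
  Prod.Lex.toLex_lt_toLex

theorem lex_append [LinearOrder L] {u v : List L} (h : List.Lex (· < ·) u v)
    (hl : u.length = v.length) (y : List L) : List.Lex (· < ·) (u ++ y) (v ++ y) := by
  induction h with
  | nil => simp at hl
  | rel h => exact List.Lex.rel h
  | cons _ ih => exact List.Lex.cons (ih (by simpa using hl))

instance [LinearOrder L] : AddLeftStrictMono (SL L) := ⟨fun x u v h => by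
  rw [SL.lt_iff] at h ⊢
  simp only [SL.ls_add, List.length_append]
  rcases h with h | h
  · exact Or.inl (by omega)
  · exact Or.inr ⟨by omega, List.Lex.append_left _ h.2 _⟩⟩

instance [LinearOrder L] : AddRightStrictMono (SL L) := ⟨fun x u v h => by
  change u + x < v + x
  rw [SL.lt_iff] at h ⊢
  simp only [SL.ls_add, List.length_append]
  rcases h with h | h
  · exact Or.inl (by omega)
  · exact Or.inr ⟨by omega, lex_append h.2 h.1 _⟩⟩

/-- A word as an element of `SL`. -/
def SL.mk (u : FreeMonoid L) : SL L := Additive.ofMul u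

theorem dg_SL (w : I → FreeMonoid L) (u : FreeMonoid I) :
    dg (fun i => SL.mk (w i)) u = SL.mk (FreeMonoid.lift w u) := by
  induction u using FreeMonoid.inductionOn' with
  | one => rfl
  | of_mul l u ih =>
    rw [dg_mul, dg_of, ih, map_mul, FreeMonoid.lift_eval_of]
    rfl

theorem Hm_single {G : Type} [AddMonoid G] {d : L → G} {S : Set L} {P : R k L}
    (hd : ∀ u ∈ Ov S, ∀ v ∈ Ov S, dg d u = dg d v → u = v) {γ : G} (hP : P ∈ Hm k d γ)
    (hS : P ∈ Sup k (Ov S)) (h0 : P ≠ 0) :
    ∃ (u : FreeMonoid L) (c : k), c ≠ 0 ∧ u ∈ Ov S ∧ P.coeff u ≠ 0 ∧ P = c • wd k u := by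
  classical
  obtain ⟨u, hu⟩ := exists_coeff h0
  refine ⟨u, P.coeff u, hu, mem_Sup.1 hS u hu, hu, ?_⟩
  ext v
  by_cases hv : u = v
  · subst hv
    simp [wd]
  · have : P.coeff v = 0 := by
      by_contra h1
      exact hv (hd u (mem_Sup.1 hS u hu) v (mem_Sup.1 hS v h1)
        ((mem_Sup.1 hP u hu).trans (mem_Sup.1 hP v h1).symm))
    simp [wd, this, Finsupp.single_apply, hv]

/-- Elements whose words have independent degrees generate a free subalgebra. -/
theorem inj_of_indep (S : Finset I) (h : R k I →ₐ[k] R k L) (h0 : ∀ i ∈ S, h (X k i) ≠ 0)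
    (hi : ∀ w : I → FreeMonoid L, (∀ i ∈ S, (h (X k i)).coeff (w i) ≠ 0) → Indep S w)
    {P : R k I} (hP : P ∈ Sup k (Ov (S : Set I))) (hz : h P = 0) : P = 0 := by
  classical
  by_contra hP0
  letI : LinearOrder L := IsWellOrder.linearOrder WellOrderingRel
  have hd : ∀ u : FreeMonoid L, dg (fun l => SL.mk (FreeMonoid.of l)) u = SL.mk u := by
    intro u
    rw [dg_SL, show FreeMonoid.lift (FreeMonoid.of : L → FreeMonoid L) = MonoidHom.id _ by
      ext; simp]
    rfl
  have h1 : ∀ i, ∃ (u : FreeMonoid L) (c : k), i ∈ S → c ≠ 0 ∧ (h (X k i)).coeff u ≠ 0 ∧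
      Top (fun l => SL.mk (FreeMonoid.of l)) (SL.mk u) (h (X k i)) (c • wd k u) := by
    intro i
    by_cases hS : i ∈ S
    · obtain ⟨γ, P0, ht, hne⟩ := exists_top (fun l => SL.mk (FreeMonoid.of l)) (h0 i hS)
      obtain ⟨u, c, hc, -, hu, hP0⟩ := Hm_single (S := Set.univ)
        (fun u _ v _ huv => by rwa [hd, hd] at huv) ht.1 (mem_Ov_univ _) hne
      have hγ := mem_Sup.1 ht.1 u hu
      refine ⟨u, c, fun _ => ⟨hc, by rwa [← ht.coeff hγ], ?_⟩⟩
      rw [← hP0, ← hd, hγ]
      exact ht
    · exact ⟨1, 0, fun h => absurd h hS⟩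
  choose w c hw using h1
  have hcode := code S _ w rfl (hi w fun i hi => (hw i hi).2.1)
  obtain ⟨γ, P0, ht, hne⟩ := exists_top (fun i => SL.mk (w i)) hP0
  have h2 := Top.map_on h (lf fun i => c i • wd k (w i))
    (fun i hi => by simpa using (hw i hi).2.2) hP ht
  rw [hz] at h2
  have h3 := h2.unique (Top.of_Lt (Submodule.zero_mem _))
  obtain ⟨u, a, ha, hu, -, rfl⟩ := Hm_single
    (fun u hu v hv huv => hcode u hu v hv (by rwa [dg_SL, dg_SL] at huv)) ht.1 (ht.mem hP) hne
  have h4 : ∀ u ∈ Ov (S : Set I), lf (k := k) (fun i => c i • wd k (w i)) (wd k u) ≠ 0 := by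
    refine Ov_ind (by simp [wd_one]) ?_
    intro l hl u _ ih
    rw [wd_mul, map_mul]
    refine mul_ne_zero ?_ ih
    rw [show wd k (FreeMonoid.of l) = X k l from rfl, lf_X]
    exact smul_ne_zero (hw l hl).1 (wd_ne_zero _)
  rw [map_smul] at h3
  exact smul_ne_zero ha (h4 u hu) h3

end

end Pool.Agent.Lib.MP_1cf7f7_al.All
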