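import Pool.Agent.Lib.MP_1cf7f7_al.All.Types

/-! A family commuting with a family of type X, with a common slice, is of type X. -/

namespace Pool.Agent.Lib.MP_1cf7f7_al.All

noncomputable section

variable {k : Type} [Field k] {ψ φ ψ' φ' : A5 → R k A5} {r r' : Γ} {i : Fin 3}

theorem TD.exact (h : TD ψ φ r) (hr : 0 < c1 r) (i : Fin 3) {P : R k A5}
    (hP : P ∈ Sup k (Ov {l | l = .a ∨ l = .b})) : pi (ext i ψ P) = pi P := by
  refine hom_eqOn (pi.comp (ext i ψ)) pi (fun z hz => ?_) hP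
  have hz1 : z.nt := by rcases hz with rfl | rfl <;> trivial
  have hz2 : c1 (d5 (fun _ => r) z) = 0 := by rcases hz with rfl | rfl <;> simp [d5]
  have h1 := (h.letter (ρ := fun _ => r) (i := i) rfl z).le
  have h2 := sub_kill_mem (S := {l : A4 | l.nt}) (pr4 (0 : k) id) (fun l hl => pr4_nt hl)
    (fun l hl => by
      obtain ⟨j, rfl⟩ := l.nt_or.resolve_left hl
      simp) (pi (ext i ψ (X k z)))
  rw [← pi_pr, ext_nt i ψ hz1, pr5_pr5, mul_zero, pr5_zero (m' := id), h.cu z hz1,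
    ← ext_nt i ψ hz1] at h2
  by_contra hc
  obtain ⟨u, hu⟩ := exists_coeff (sub_ne_zero.2 hc)
  have h3 := mem_Sup.1 h2 u hu
  have h4 := c1_mono (mem_Sup.1 h1 u h3.2)
  have h5 := h3.1
  simp only [Ov, Set.mem_compl_iff, Set.mem_ofPred_eq, not_forall] at h5
  obtain ⟨l, hl, hl'⟩ := h5
  obtain ⟨j, rfl⟩ := l.nt_or.resolve_left hl'
  rw [hz2, dg_map] at h4
  exact absurd (((dg_nonneg (e := fun l => c1 (dF (fun _ => r) l)) fun l _ => by
    cases l <;> simp [dF, hr.le]).2 _ hl).trans h4) (not_le.2 hr)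

theorem nm_of_ab : ∀ u : List A5, (∀ l ∈ u, l = .a ∨ l = .b) → nm u
  | [], _ => trivial
  | l :: u, h => ⟨fun e => by simpa [e] using h l (by simp), nm_of_ab u fun l' hl' =>
      h l' (by simp [hl'])⟩

theorem top_X {L : Type} {d : L → Γ} {γ : Γ} {l : L} {D : R k L} (h : Top d γ (X k l) D) :
    ∃ c : k, D = c • X k l := by
  have := map_mem LinearMap.id (Submodule.span k {X k l}) (s := {FreeMonoid.of l})
    (fun u hu => by rw [show u = _ from hu]; exact Submodule.mem_span_singleton_self _)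
    (h.mem (wd_mem rfl))
  obtain ⟨c, hc⟩ := Submodule.mem_span_singleton.1 this
  exact ⟨c, hc.symm⟩

theorem no_slice (h : TD ψ φ r) (h' : TD ψ' φ' r') (hr : 0 < c1 r) (hr' : 0 < c1 r')
    (ha : H 0 φ (X k .a) = X k .a) (hb : H 0 φ (X k .b) = X k .b)
    {Φ Φ' : R k A4 →ₐ[k] R k A4} {m m' : R k A4} (hs : Shift .s 0 Φ m) (hs' : Shift .w 1 Φ' m')
    (e : ∀ P, H 0 φ P = Φ (ph P)) (e' : ∀ P, H 1 φ' P = Φ' (ph P)) {u : R k A5}
    (h0 : pr5 0 id u = u) (h1 : ext 0 ψ u = u + X k (.t 0)) (h2 : ext 1 ψ' u = u) : False := by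
  obtain ⟨Q, hQ, hq⟩ := nf 1 u
  have hB : fil (Ov {l | l = .a ∨ l = .b}) Q ∈ Sup k (Ov {l | l = .a ∨ l = .b}) :=
    Sup_mono (fun _ h => h.1) (fil_mem _ Q)
  have hQ1 := sub_fil_mem (Ov {l | l = .a ∨ l = .b}) Q
  set Q' := Q - fil (Ov {l | l = .a ∨ l = .b}) Q with hQ'
  have hn : Q' ∈ Sup k Nm := Sup_mono (fun u hu => mem_Sup.1 hQ u hu.2) hQ1
  have f1 : pi (ext 0 ψ Q') = pi Q' + X k (.t 0) := by
    have := hq _ (h.rel1 0)
    simp only [AlgHom.comp_apply] at this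
    rw [hQ', map_sub, map_sub, ← this, h1, h.exact hr 0 hB, map_add, hq pi rel_pi, map_sub,
      show pi (X k (A5.t 0)) = X k (.t 0) from lf_X _ _]
    abel
  have f2 : pi (ext 1 ψ' Q') = pi Q' := by
    have := hq _ (h'.rel1 1)
    simp only [AlgHom.comp_apply] at this
    rw [hQ', map_sub, map_sub, ← this, h2, h'.exact hr' 1 hB, hq pi rel_pi, map_sub]
  have f0 : pr4 0 id (pi Q') = pi Q' := by
    rw [hQ', map_sub, map_sub, ← hq pi rel_pi, ← pi_pr, ← pi_pr, h0,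
      hom_fix _ (fun l hl => pr5_nt (by rcases hl with rfl | rfl <;> trivial)) hB]
  have hne : Q' ≠ 0 := by
    intro h3
    rw [h3] at f1
    exact X_ne_zero (k := k) (A4.t 0) (by simpa using f1.symm)
  obtain ⟨γ, Q0, ht, hQ0⟩ := exists_top (d5 ![r, r', r]) hne
  have t0 := top_pi ht
  have g0 : ph Q0 ∈ Sup k (Ov {l | l.nt}) := by
    have t1 := top_pr4 (c := (0 : k)) (m := id) (ρ := ![r, r', r]) (fun _ => rfl) t0
    rw [f0, ← pt_pr] at t1
    rw [rel_ph.eq (t0.unique t1), ph_pr]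
    refine hom_Ov _ (fun l _ => ?_) (mem_Ov_univ _)
    rcases l.nt_or with hl | ⟨j, rfl⟩
    · rw [pr4_nt hl]
      exact X_mem hl
    · simp
  have g1 : ph Q0 ∈ Sup k (Ov {l | l ≠ .w}) := by
    have t1 := h'.map (i := 1) rfl t0
    rw [f2] at t1
    exact hs'.fixed (by simp) (Ov_mono (by rintro l hl rfl; exact hl) g0)
      ((e' Q0).symm.trans (rel_ph.eq (t1.unique t0)))
  have g2 : ph Q0 ∈ Sup k (Ov {l | l ≠ .s}) := by
    have t1 := (h.map (i := 0) rfl t0).sub t0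
    rw [f1, add_sub_cancel_left] at t1
    obtain ⟨c, hc⟩ := top_X t1
    have t2 : H 0 φ Q0 = ph Q0 + c • X k (.t 0) := by
      have := rel_ph.eq (P := ext 0 φ Q0) (Q := Q0 + c • X k (.t 0)) (by
        rw [map_add, map_smul, show pt (X k (A5.t 0)) = X k (.t 0) from lf_X _ _, ← hc]
        abel)
      simpa [H] using this
    obtain ⟨ε, hε⟩ : ∃ ε : R k A4 →ₐ[k] R k A4, ∀ l, ε (X k l) =
        if l = .a ∨ l = .b then 0 else X k l := ⟨lf _, fun l => lf_X _ l⟩
    have t3 : (ε.comp (H 0 φ)) Q0 = (ε.comp ph) Q0 := by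
      refine hom_ext _ _ (fun l => ?_) Q0
      cases l <;> simp [e, hs.eq, hs.fix, hε]
    simp only [AlgHom.comp_apply, t2, map_add, map_smul, hε] at t3
    have t4 : c • X k (A4.t 0) = 0 := by simpa using t3
    rw [t4, add_zero, e] at t2
    exact hs.fixed (by simp) (Ov_mono (by rintro l hl rfl; exact hl) g0) t2
  have g3 : back (ph Q0) ∈ Sup k (Ov {l | l = .a ∨ l = .b}) := by
    refine hom_Ov (S := {l | l = .a ∨ l = .b}) _ (fun l hl => ?_) (mem_Sup.2 fun v hv l hl => ?_)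
    · rcases hl with rfl | rfl <;> rw [back, lf_X] <;> exact X_mem (by simp)
    · have := mem_Sup.1 g0 v hv l hl
      have := mem_Sup.1 g1 v hv l hl
      have := mem_Sup.1 g2 v hv l hl
      cases l <;> simp_all [A4.nt]
  have g4 : Q0 = back (ph Q0) := sub_eq_zero.1 (pt_inj (sub_mem (ht.mem hn)
    (Sup_mono (fun v hv => nm_of_ab _ hv) g3)) (by
      rw [map_sub, pt_of_ph (ph_back g2), sub_self]))
  exact hQ0 (Sup_eq_zero (ht.mem hQ1) (g4 ▸ g3) fun v hv hv' => hv.1 hv')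

theorem side_core (h : TD ψ φ r) (h' : TD ψ' φ' r')
    (hn : ∃ z, z.nt ∧ H 0 φ (X k z) ≠ ph (X k z)) (hn' : ∃ z, z.nt ∧ H 1 φ' (X k z) ≠ ph (X k z))
    (hc : ∀ z, z.nt → ext 0 ψ (ext 1 ψ' (X k z)) = ext 1 ψ' (ext 0 ψ (X k z)))
    (hco : ∀ z, z.nt → ext 1 ψ' (ext 1 ψ' (X k z)) = pr5 2 id (ext 1 ψ' (X k z))) {u : R k A5}
    (h0 : pr5 0 id u = u) (h1 : ext 0 ψ u = u + X k (.t 0)) (h2 : ext 1 ψ' u = u)
    (hr : 0 < fs r) : 0 < fs r' := by
  by_contra hr'
  rw [not_lt] at hr'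
  obtain ⟨Φ, m, hs, e⟩ := h.typeX hr hn
  have ha := h.fixes 0 fs fs_nn hr (z := .a) trivial (by simp [d5])
  have hb := h.fixes 0 fs fs_nn hr (z := .b) trivial (by simp [d5])
  have hw := h.fixes 0 fs fs_nn hr (z := .w) trivial (by simp [d5])
  have c0 : ∀ z, z.nt → Φ (H 1 φ' (X k z)) = H 1 φ' (ext 0 φ (X k z)) := fun z hz =>
    (e _).symm.trans (h.comm h' hc hz)
  have o1 : ∀ z, z.nt → H 1 φ' (X k z) ∈ Sup k (Ov {l | l ≠ .t 0}) := fun z hz =>
    Ov_mono (by rintro l hl rfl; simp [A4.nt] at hl) (H_ov 1 φ' hz)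
  have s1 : ∀ z, z.nt → H 0 φ (X k z) = ph (X k z) → H 1 φ' (X k z) ∈ Sup k (Ov {l | l ≠ .s}) :=
    fun z hz hz' => hs.fixed (by simp) (o1 z hz) ((c0 z hz).trans ((h'.relH 1).eq' hz'))
  have hsub : ∀ z, z.nt → H 1 φ' (X k z) - ph (X k z) ∈ Hm k (d4 fun _ => r') (d5 0 z) :=
    fun z hz => sub_mem (h'.H_hm rfl hz) (ph_Hm (Hm_cast (X_Hm _ z) (d5_nt hz _ _)))
  by_cases hA : H 1 φ' (X k .a) = X k .a ∧ H 1 φ' (X k .b) = X k .b ∧ H 1 φ' (X k .w) = X k .w
  · have key : ∀ z, z.nt → fs (d5 0 z) = 1 → H 1 φ' (X k z) = ph (X k z) := by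
      intro z hz hz1
      obtain ⟨N, n1, n2⟩ := h.facet 0 fs fs_nn hr hz
      have n3 : H 1 φ' N = ph N := hom_eqOn _ _ (fun l hl => by
        cases l <;> simp_all [d5]) n2
      have n4 := c0 z hz
      rw [(h'.relH 1).eq' (P := ext 0 φ (X k z)) (Q := X k z + N) (by simpa [H] using n1), map_add,
        n3] at n4
      have n5 := hs.fixed (P := H 1 φ' (X k z) - ph (X k z)) (by simp) (sub_mem (o1 z hz)
        (ph_ov (fun l hl => by
          obtain rfl : l = z := hl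
          cases l <;> first | exact hz.elim | simp [pl]) (X_mem (S := {z}) rfl)))
        (by rw [map_sub, n4, ← e, n1]; abel)
      by_contra hc'
      have := Hm_le (f := fs) (sub_ne_zero.2 hc') (hsub z hz) n5
        (fun l hl => by cases l <;> simp_all [d4]) (h'.H_has 1 hz)
      linarith
    obtain ⟨z, hz, hz'⟩ := hn'
    cases z
    · exact hz' (key _ hz (by simp [d5]))
    · exact hz' (key _ hz (by simp [d5]))
    · exact hz' (hA.1.trans ph_a.symm)
    · exact hz' (hA.2.1.trans ph_b.symm)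
    · exact hz' (hA.2.2.trans ph_w.symm)
    · exact hz
  have nfa : fa r' ≤ 0 := not_lt.1 fun hf => hn'.elim fun z hz => hz.2 (h'.triv_fa 1 hf z hz.1)
  have nfb : fb r' ≤ 0 := not_lt.1 fun hf => hn'.elim fun z hz => hz.2 (h'.triv_fb 1 hf z hz.1)
  have hw' : 0 < fw r' := by
    by_contra hw'
    have o2 : ∀ z, z.nt → H 0 φ (X k z) = ph (X k z) → H 1 φ' (X k z) ∈
        Sup k (Ov {.t 1, A4.a, A4.b, A4.w}) := fun z hz hz' =>
      mem_Sup.2 fun v hv l hl => by
        have := mem_Sup.1 (s1 z hz hz') v hv l hl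
        have := mem_Sup.1 (H_ov 1 φ' hz) v hv l hl
        cases l <;> simp_all [A4.nt]
    have o3 : ∀ z, z.nt → H 0 φ (X k z) = ph (X k z) →
        H 1 φ' (back (H 1 φ' (X k z))) = pr4 2 id (H 1 φ' (X k z)) := fun z hz hz' =>
      ((h'.relH 1).eq' (ph_back (s1 z hz hz'))).trans (h'.coact hco hz)
    have := rigid4 (i := 1) (r := r') {.a, .b, .w} (by simp [A4.nt]) ((H 1 φ').comp back)
      (by simp [ee, d4, nfa, nfb, not_lt.1 hw']) (by simp [back])
      (by simpa [back] using ⟨o2 .a trivial ha, o2 .b trivial hb, o2 .w trivial hw⟩)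
      (by simpa [back] using ⟨h'.H_hm (z := .a) rfl trivial, h'.H_hm (z := .b) rfl trivial,
        h'.H_hm (z := .w) rfl trivial⟩)
      (by simpa [back] using ⟨by simpa using h'.H_has 1 (z := .a) trivial,
        by simpa using h'.H_has 1 (z := .b) trivial, by simpa using h'.H_has 1 (z := .w) trivial⟩)
      (by simpa [back] using ⟨o3 .a trivial ha, o3 .b trivial hb, o3 .w trivial hw⟩)
    exact hA (by simpa [back] using this)
  obtain ⟨Φ', m', hs', e'⟩ := h'.typeW hw' hn'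
  have k1 : 0 ≤ fs r' := by
    by_contra hk
    have := Hm_le (f := fs) (i := 1) (ρ := fun _ => r') (γ := d5 0 .w) hs'.ne
      (by simpa [e', hs'.eq] using hsub .w trivial)
      (by simpa [e', hs'.eq] using sub_mem (s1 .w trivial hw) (X_mem (l := A4.w) (by simp)))
      (fun l hl => by cases l <;> simp_all [d4]) hs'.has
    exact hk (by simpa [d5] using this)
  have k2 : 0 ≤ fw r := by
    by_contra hk
    have hx := h'.fixes 1 fw fw_nn hw' (z := .x1) trivial (by simp [d5])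
    have k3 := hs'.fixed (P := H 0 φ (X k .x1)) (by simp)
      (Ov_mono (by rintro l hl rfl; simp [A4.nt] at hl) (H_ov 0 φ (z := .x1) trivial))
      ((e' _).symm.trans ((h.comm h' hc (z := .x1) trivial).symm.trans ((h.relH 0).eq' hx)))
    have := Hm_le (f := fw) (i := 0) (ρ := fun _ => r) (γ := d5 0 .x1)
      (P := H 0 φ (X k .x1) - ph (X k .x1))
      (by simpa [e, hs.eq, hs.fix, mul_add, X_ne_zero] using hs.ne)
      (sub_mem (h.H_hm rfl trivial) (ph_Hm (X_Hm _ A5.x1)))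
      (sub_mem k3 (by simpa using Ov_mul_mem (X_mem (by simp)) (X_mem (by simp))))
      (fun l hl => by cases l <;> simp_all [d4, le_of_lt]) (h.H_has 0 trivial)
    exact hk (by simpa [d5] using this)
  have k4 : ∀ x, c1 x = fs x + fw x := fun x => by simp [fs]
  exact no_slice h h' (by rw [k4]; linarith) (by rw [k4]; linarith) (by simpa using ha)
    (by simpa using hb) hs hs' e e' h0 h1 h2

end

end Pool.Agent.Lib.MP_1cf7f7_al.All
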