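import Mathlib

/-! Free algebras as monoid algebras of words: supports, weighted degrees and top parts. -/

namespace Pool.Agent.Lib.MP_1cf7f7_al.All

open MonoidAlgebra

noncomputable section

/-- The free algebra on the alphabet `L`. -/
abbrev R (k L : Type) [Field k] : Type := MonoidAlgebra k (FreeMonoid L)

variable {k : Type} [Field k] {L L' : Type}

/-- A word as an element of the free algebra. -/
def wd (k : Type) [Field k] (u : FreeMonoid L) : R k L := single u 1

/-- A letter as an element of the free algebra. -/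
def X (k : Type) [Field k] (l : L) : R k L := wd k (FreeMonoid.of l)

theorem wd_mul (u v : FreeMonoid L) : wd k (u * v) = wd k u * wd k v := by
  simp [wd, single_mul_single]

theorem wd_one : wd k (1 : FreeMonoid L) = 1 := rfl

theorem wd_ne_zero (u : FreeMonoid L) : wd k u ≠ 0 := by simp [wd]

theorem X_ne_zero (l : L) : X k l ≠ 0 := wd_ne_zero _

/-- The algebra map given by its values on letters. -/
def lf {B : Type} [Ring B] [Algebra k B] (f : L → B) : R k L →ₐ[k] B :=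
  MonoidAlgebra.lift k B (FreeMonoid L) (FreeMonoid.lift f)

@[simp] theorem lf_X {B : Type} [Ring B] [Algebra k B] (f : L → B) (l : L) :
    lf (k := k) f (X k l) = f l := by
  simp [lf, X, wd]

/-- Elements supported on a set of words. -/
def Sup (k : Type) [Field k] (s : Set (FreeMonoid L)) : Submodule k (R k L) :=
  MonoidAlgebra.supported k k s

theorem mem_Sup {s : Set (FreeMonoid L)} {P : R k L} :
    P ∈ Sup k s ↔ ∀ u, P.coeff u ≠ 0 → u ∈ s := by
  simp [Sup, MonoidAlgebra.mem_supported, Set.subset_def]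

theorem wd_mem {s : Set (FreeMonoid L)} {u : FreeMonoid L} (h : u ∈ s) : wd k u ∈ Sup k s := by
  classical
  rw [mem_Sup]
  intro v hv
  simp only [wd, coeff_single, Finsupp.single_apply] at hv
  split_ifs at hv with h1
  · exact h1 ▸ h
  · exact absurd rfl hv

theorem Sup_mono {s t : Set (FreeMonoid L)} (h : s ⊆ t) {P : R k L} (hP : P ∈ Sup k s) :
    P ∈ Sup k t := mem_Sup.2 fun u hu => h (mem_Sup.1 hP u hu)

theorem Sup_inter {s t : Set (FreeMonoid L)} {P : R k L} (hs : P ∈ Sup k s) (ht : P ∈ Sup k t) :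
    P ∈ Sup k (s ∩ t) := mem_Sup.2 fun u hu => ⟨mem_Sup.1 hs u hu, mem_Sup.1 ht u hu⟩

theorem exists_coeff {P : R k L} (h : P ≠ 0) : ∃ u, P.coeff u ≠ 0 := by
  by_contra hc
  push Not at hc
  exact h (by ext u; simpa using hc u)

theorem Sup_eq_zero {s t : Set (FreeMonoid L)} {P : R k L} (hs : P ∈ Sup k s) (ht : P ∈ Sup k t)
    (h : ∀ u, u ∈ s → u ∈ t → False) : P = 0 := by
  by_contra hP
  obtain ⟨u, hu⟩ := exists_coeff hP
  exact h u (mem_Sup.1 hs u hu) (mem_Sup.1 ht u hu)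

theorem mem_Sup_self (P : R k L) : P ∈ Sup k {u | P.coeff u ≠ 0} := mem_Sup.2 fun _ h => h

theorem Sup_ind {s : Set (FreeMonoid L)} {p : R k L → Prop} {P : R k L} (hP : P ∈ Sup k s)
    (hw : ∀ u ∈ s, p (wd k u)) (h0 : p 0) (ha : ∀ x y, p x → p y → p (x + y))
    (hs : ∀ (c : k) x, p x → p (c • x)) : p P := by
  rw [Sup, MonoidAlgebra.supported_eq_span_single] at hP
  induction hP using Submodule.span_induction with
  | mem x hx =>
    obtain ⟨u, hu, rfl⟩ := hx
    exact hw u hu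
  | zero => exact h0
  | add x y _ _ hx hy => exact ha x y hx hy
  | smul c x _ hx => exact hs c x hx

theorem map_mem {s : Set (FreeMonoid L)} {M : Type} [AddCommGroup M] [Module k M]
    (h : R k L →ₗ[k] M) (N : Submodule k M) (hw : ∀ u ∈ s, h (wd k u) ∈ N) {P : R k L}
    (hP : P ∈ Sup k s) : h P ∈ N := by
  refine Sup_ind (p := fun P => h P ∈ N) hP hw (by simp) ?_ ?_
  · intro x y hx hy
    simpa using N.add_mem hx hy
  · intro c x hx
    simpa using N.smul_mem c hx

theorem Sup_mul {s t r : Set (FreeMonoid L)} (h : ∀ u ∈ s, ∀ v ∈ t, u * v ∈ r) {P Q : R k L}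
    (hP : P ∈ Sup k s) (hQ : Q ∈ Sup k t) : P * Q ∈ Sup k r := by
  refine map_mem (LinearMap.mulRight k Q) (Sup k r) (fun u hu => ?_) hP
  refine map_mem (LinearMap.mulLeft k (wd k u)) (Sup k r) (fun v hv => ?_) hQ
  simpa [← wd_mul] using wd_mem (k := k) (h u hu v hv)

/-- Words all of whose letters lie in `S`. -/
def Ov (S : Set L) : Set (FreeMonoid L) := {u | ∀ l ∈ FreeMonoid.toList u, l ∈ S}

theorem Ov_univ (u : FreeMonoid L) : u ∈ Ov (Set.univ : Set L) := fun _ _ => trivial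

theorem mem_Ov_univ (P : R k L) : P ∈ Sup k (Ov (Set.univ : Set L)) :=
  mem_Sup.2 fun u _ => Ov_univ u

theorem Ov_one (S : Set L) : (1 : FreeMonoid L) ∈ Ov S := by simp [Ov]

theorem Ov_mul {S : Set L} {u v : FreeMonoid L} : u * v ∈ Ov S ↔ u ∈ Ov S ∧ v ∈ Ov S := by
  simp [Ov, or_imp, forall_and]

theorem Ov_of {S : Set L} {l : L} : FreeMonoid.of l ∈ Ov S ↔ l ∈ S := by simp [Ov]

theorem Ov_mono {S T : Set L} (h : S ⊆ T) {P : R k L} (hP : P ∈ Sup k (Ov S)) :
    P ∈ Sup k (Ov T) := Sup_mono (s := Ov S) (t := Ov T) (fun _ hu l hl => h (hu l hl)) hP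

theorem X_mem {S : Set L} {l : L} (h : l ∈ S) : X k l ∈ Sup k (Ov S) := wd_mem (Ov_of.2 h)

theorem Ov_mul_mem {S : Set L} {P Q : R k L} (hP : P ∈ Sup k (Ov S)) (hQ : Q ∈ Sup k (Ov S)) :
    P * Q ∈ Sup k (Ov S) := Sup_mul (fun _ hu _ hv => Ov_mul.2 ⟨hu, hv⟩) hP hQ

theorem Ov_ind {S : Set L} {p : FreeMonoid L → Prop} (h1 : p 1)
    (hc : ∀ l ∈ S, ∀ u ∈ Ov S, p u → p (FreeMonoid.of l * u)) : ∀ u ∈ Ov S, p u := by
  intro u
  induction u using FreeMonoid.inductionOn' with
  | one => exact fun _ => h1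
  | of_mul l u ih =>
    intro hu
    rw [Ov_mul, Ov_of] at hu
    exact hc l hu.1 u hu.2 (ih hu.2)

theorem hom_eqOn {B : Type} [Ring B] [Algebra k B] {S : Set L} (h h' : R k L →ₐ[k] B)
    (hh : ∀ l ∈ S, h (X k l) = h' (X k l)) {P : R k L} (hP : P ∈ Sup k (Ov S)) : h P = h' P := by
  have := map_mem (h.toLinearMap - h'.toLinearMap) ⊥ (s := Ov S) (by
    refine Ov_ind (by simp [wd_one]) ?_
    intro l hl u _ ih
    simp only [LinearMap.sub_apply, AlgHom.toLinearMap_apply, Submodule.mem_bot,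
      sub_eq_zero] at ih ⊢
    rw [wd_mul, map_mul, map_mul, ih]
    exact congrArg (· * _) (hh l hl)) hP
  simpa [sub_eq_zero] using this

theorem hom_ext {B : Type} [Ring B] [Algebra k B] (h h' : R k L →ₐ[k] B)
    (hh : ∀ l, h (X k l) = h' (X k l)) (P : R k L) : h P = h' P :=
  hom_eqOn h h' (fun l _ => hh l) (mem_Ov_univ P)

theorem hom_fix {S : Set L} (h : R k L →ₐ[k] R k L) (hh : ∀ l ∈ S, h (X k l) = X k l)
    {P : R k L} (hP : P ∈ Sup k (Ov S)) : h P = P :=
  hom_eqOn h (AlgHom.id k _) hh hP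

theorem hom_mem {S : Set L} {Z : Set (FreeMonoid L')} (h1 : (1 : FreeMonoid L') ∈ Z)
    (hm : ∀ u ∈ Z, ∀ v ∈ Z, u * v ∈ Z) (h : R k L →ₐ[k] R k L')
    (hh : ∀ l ∈ S, h (X k l) ∈ Sup k Z) {P : R k L} (hP : P ∈ Sup k (Ov S)) :
    h P ∈ Sup k Z := by
  refine map_mem h.toLinearMap (Sup k Z) ?_ hP
  refine Ov_ind (by simpa [wd_one] using wd_mem (k := k) h1) ?_
  intro l hl u _ ih
  simp only [AlgHom.toLinearMap_apply] at ih ⊢
  rw [wd_mul, map_mul]
  exact Sup_mul hm (hh l hl) ih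

theorem hom_Ov {S : Set L} {T : Set L'} (h : R k L →ₐ[k] R k L')
    (hh : ∀ l ∈ S, h (X k l) ∈ Sup k (Ov T)) {P : R k L} (hP : P ∈ Sup k (Ov S)) :
    h P ∈ Sup k (Ov T) :=
  hom_mem (Ov_one T) (fun _ hu _ hv => Ov_mul.2 ⟨hu, hv⟩) h hh hP

open Classical in
/-- The part of an element supported on a set of words. -/
def fil (s : Set (FreeMonoid L)) (P : R k L) : R k L := ofCoeff (P.coeff.filter (· ∈ s))

open Classical in
theorem coeff_fil (s : Set (FreeMonoid L)) (P : R k L) (u : FreeMonoid L) :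
    (fil s P).coeff u = if u ∈ s then P.coeff u else 0 := by
  simp [fil, Finsupp.filter_apply]

theorem fil_mem (s : Set (FreeMonoid L)) (P : R k L) :
    fil s P ∈ Sup k (s ∩ {u | P.coeff u ≠ 0}) := by
  refine mem_Sup.2 fun u hu => ?_
  rw [coeff_fil] at hu
  split_ifs at hu with h
  · exact ⟨h, hu⟩
  · exact absurd rfl hu

theorem sub_fil_mem (s : Set (FreeMonoid L)) (P : R k L) :
    P - fil s P ∈ Sup k (sᶜ ∩ {u | P.coeff u ≠ 0}) := by
  refine mem_Sup.2 fun u hu => ?_
  have h2 : (P - fil s P).coeff u = P.coeff u - (fil s P).coeff u := by simp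
  rw [h2, coeff_fil] at hu
  split_ifs at hu with h
  · simp at hu
  · exact ⟨h, by simpa using hu⟩

/-- A map killing the letters outside `S` and fixing those in `S` only removes words. -/
theorem sub_kill_mem {S : Set L} (h : R k L →ₐ[k] R k L) (h1 : ∀ l ∈ S, h (X k l) = X k l)
    (h0 : ∀ l ∉ S, h (X k l) = 0) (P : R k L) :
    P - h P ∈ Sup k ((Ov S)ᶜ ∩ {u | P.coeff u ≠ 0}) := by
  refine map_mem (LinearMap.id - h.toLinearMap) _ ?_ (mem_Sup_self P)
  intro u hu
  by_cases hS : u ∈ Ov S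
  · simp [hom_fix h h1 (wd_mem hS)]
  · have : ∀ v : FreeMonoid L, v ∉ Ov S → h (wd k v) = 0 := by
      intro v
      induction v using FreeMonoid.inductionOn' with
      | one => exact fun hv => absurd (Ov_one S) hv
      | of_mul l v ih =>
        intro hv
        rw [wd_mul, map_mul]
        by_cases hl : l ∈ S
        · rw [ih fun h' => hv (Ov_mul.2 ⟨Ov_of.2 hl, h'⟩), mul_zero]
        · rw [show h (wd k (FreeMonoid.of l)) = 0 from h0 l hl, zero_mul]
    simpa [this u hS] using wd_mem (k := k) (s := (Ov S)ᶜ ∩ {u | P.coeff u ≠ 0}) ⟨hS, hu⟩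

section Deg

variable {G : Type} [AddMonoid G]

/-- The weighted degree of a word. -/
def dg (d : L → G) (u : FreeMonoid L) : G := ((FreeMonoid.toList u).map d).sum

@[simp] theorem dg_one (d : L → G) : dg d 1 = 0 := by simp [dg]

@[simp] theorem dg_mul (d : L → G) (u v : FreeMonoid L) : dg d (u * v) = dg d u + dg d v := by
  simp [dg]

@[simp] theorem dg_of (d : L → G) (l : L) : dg d (FreeMonoid.of l) = d l := by simp [dg]

theorem dg_map {G' : Type} [AddMonoid G'] (f : G →+ G') (d : L → G) (u : FreeMonoid L) :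
    f (dg d u) = dg (fun l => f (d l)) u := by
  induction u using FreeMonoid.inductionOn' with
  | one => simp
  | of_mul l u ih => simp [ih]

theorem dg_nonneg {e : L → ℚ} {u : FreeMonoid L} (h : ∀ l ∈ FreeMonoid.toList u, 0 ≤ e l) :
    0 ≤ dg e u ∧ ∀ l ∈ FreeMonoid.toList u, e l ≤ dg e u := by
  induction u using FreeMonoid.inductionOn' with
  | one => simp
  | of_mul l u ih =>
    have h1 := h l (by simp)
    have h2 := ih fun l' hl' => h l' (by simp [hl'])
    refine ⟨by simp only [dg_mul, dg_of]; linarith [h2.1], fun l' hl' => ?_⟩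
    simp only [FreeMonoid.toList_mul, FreeMonoid.toList_of, List.singleton_append,
      List.mem_cons] at hl'
    simp only [dg_mul, dg_of]
    rcases hl' with rfl | hl'
    · linarith [h2.1]
    · linarith [h2.2 l' hl']

theorem dg_neg (e : L → ℚ) (u : FreeMonoid L) : dg (fun l => -e l) u = -dg e u := by
  induction u using FreeMonoid.inductionOn' with
  | one => simp
  | of_mul l u ih => simp [ih]; ring

theorem dg_nonpos {e : L → ℚ} {u : FreeMonoid L} (h : ∀ l ∈ FreeMonoid.toList u, e l ≤ 0) :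
    dg e u ≤ 0 ∧ ∀ l ∈ FreeMonoid.toList u, dg e u ≤ e l := by
  have := dg_nonneg (e := fun l => -e l) (u := u) fun l hl => by linarith [h l hl]
  rw [dg_neg] at this
  exact ⟨by linarith [this.1], fun l hl => by linarith [this.2 l hl]⟩

/-- Homogeneous elements. -/
def Hm (k : Type) [Field k] (d : L → G) (γ : G) : Submodule k (R k L) := Sup k {u | dg d u = γ}

theorem Hm_mul {d : L → G} {γ δ : G} {P Q : R k L} (hP : P ∈ Hm k d γ) (hQ : Q ∈ Hm k d δ) :
    P * Q ∈ Hm k d (γ + δ) :=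
  Sup_mul (fun u hu v hv => by simp only [Set.mem_ofPred_eq, dg_mul] at *; rw [hu, hv]) hP hQ

theorem X_Hm (d : L → G) (l : L) : X k l ∈ Hm k d (d l) := wd_mem (dg_of d l)

variable [LinearOrder G]

/-- Elements of degree at most `γ`. -/
def Le (k : Type) [Field k] (d : L → G) (γ : G) : Submodule k (R k L) := Sup k {u | dg d u ≤ γ}

/-- Elements of degree less than `γ`. -/
def Lt (k : Type) [Field k] (d : L → G) (γ : G) : Submodule k (R k L) := Sup k {u | dg d u < γ}

/-- `P0` is the part of degree `γ` of `P`, and `P` has degree at most `γ`. -/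
def Top (d : L → G) (γ : G) (P P0 : R k L) : Prop := P0 ∈ Hm k d γ ∧ P - P0 ∈ Lt k d γ

variable {d : L → G} {γ δ : G} {P Q P0 Q0 : R k L}

theorem Le_Lt (h : γ < δ) (hP : P ∈ Le k d γ) : P ∈ Lt k d δ :=
  Sup_mono (fun _ hu => lt_of_le_of_lt hu h) hP

theorem Top.le (h : Top d γ P P0) : P ∈ Le k d γ := by
  have : P = (P - P0) + P0 := by simp
  rw [this]
  exact Submodule.add_mem _ (Sup_mono (fun _ hu => le_of_lt hu) h.2)
    (Sup_mono (fun _ hu => le_of_eq hu) h.1)

theorem Top.of_Hm (h : P ∈ Hm k d γ) : Top d γ P P := ⟨h, by simp⟩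

theorem Top.of_Lt (h : P ∈ Lt k d γ) : Top d γ P 0 := ⟨by simp, by simpa using h⟩

theorem Top.add (h : Top d γ P P0) (h' : Top d γ Q Q0) : Top d γ (P + Q) (P0 + Q0) :=
  ⟨Submodule.add_mem _ h.1 h'.1, by
    have := Submodule.add_mem _ h.2 h'.2
    convert this using 1
    abel⟩

theorem Top.sub (h : Top d γ P P0) (h' : Top d γ Q Q0) : Top d γ (P - Q) (P0 - Q0) :=
  ⟨Submodule.sub_mem _ h.1 h'.1, by
    have := Submodule.sub_mem _ h.2 h'.2
    convert this using 1
    abel⟩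

theorem Top.smul (c : k) (h : Top d γ P P0) : Top d γ (c • P) (c • P0) :=
  ⟨Submodule.smul_mem _ c h.1, by simpa [smul_sub] using Submodule.smul_mem _ c h.2⟩

theorem Top.unique (h : Top d γ P P0) (h' : Top d γ P Q0) : P0 = Q0 := by
  have h1 := Submodule.sub_mem _ h.1 h'.1
  have h2 := Submodule.sub_mem _ h'.2 h.2
  rw [show P - Q0 - (P - P0) = P0 - Q0 by abel] at h2
  exact sub_eq_zero.1 (Sup_eq_zero h1 h2 fun u hu hu' => absurd hu (ne_of_lt hu'))

theorem top_fil (h : P ∈ Le k d γ) : Top d γ P (fil {u | dg d u = γ} P) :=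
  ⟨Sup_mono (fun _ hu => hu.1) (fil_mem _ P), Sup_mono
    (fun u hu => lt_of_le_of_ne (mem_Sup.1 h u hu.2) hu.1) (sub_fil_mem _ P)⟩

theorem Top.mem {s : Set (FreeMonoid L)} (h : Top d γ P P0) (hs : P ∈ Sup k s) :
    P0 ∈ Sup k s := by
  rw [h.unique (top_fil h.le)]
  exact Sup_mono (fun u hu => mem_Sup.1 hs u hu.2) (fil_mem _ P)

theorem Top.coeff (h : Top d γ P P0) {u : FreeMonoid L} (hu : dg d u = γ) :
    P0.coeff u = P.coeff u := by
  rw [h.unique (top_fil h.le), coeff_fil]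
  exact if_pos hu

theorem exists_top (d : L → G) (hP : P ≠ 0) : ∃ γ P0, Top d γ P P0 ∧ P0 ≠ 0 := by
  obtain ⟨u0, hu0⟩ := exists_coeff hP
  obtain ⟨u, hu, hmax⟩ := P.coeff.support.exists_max_image (dg d) ⟨u0, by simpa using hu0⟩
  have hle : P ∈ Le k d (dg d u) := mem_Sup.2 fun v hv => hmax v (by simpa using hv)
  refine ⟨_, _, top_fil hle, fun h0 => ?_⟩
  have := (top_fil hle).coeff rfl
  rw [h0] at this
  simp [← this] at hu

variable [AddLeftStrictMono G] [AddRightStrictMono G]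

theorem Top.mul (h : Top d γ P P0) (h' : Top d δ Q Q0) : Top d (γ + δ) (P * Q) (P0 * Q0) := by
  refine ⟨Hm_mul h.1 h'.1, ?_⟩
  rw [show P * Q - P0 * Q0 = (P - P0) * Q + P0 * (Q - Q0) by noncomm_ring]
  refine Submodule.add_mem _ (Sup_mul ?_ h.2 h'.le) (Sup_mul ?_ h.1 h'.2)
  · intro u hu v hv
    simp only [Set.mem_ofPred_eq, dg_mul] at *
    rcases hv.lt_or_eq with hv | hv
    · exact (add_lt_add_right hv _).trans (add_lt_add_left hu _)
    · rw [hv]
      exact add_lt_add_left hu _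
  · intro u hu v hv
    simp only [Set.mem_ofPred_eq, dg_mul] at *
    rw [hu]
    exact add_lt_add_right hv _

theorem Top.map_wd {S : Set L} {d' : L' → G} (h h0 : R k L →ₐ[k] R k L')
    (hh : ∀ l ∈ S, Top d' (d l) (h (X k l)) (h0 (X k l))) :
    ∀ u ∈ Ov S, Top d' (dg d u) (h (wd k u)) (h0 (wd k u)) := by
  refine Ov_ind ?_ ?_
  · simp only [wd_one, map_one, dg_one]
    exact Top.of_Hm (wd_mem (dg_one d'))
  · intro l hl u _ ih
    simp only [wd_mul, map_mul, dg_mul, dg_of]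
    exact (hh l hl).mul ih

theorem Top.map_on {S : Set L} {d' : L' → G} (h h0 : R k L →ₐ[k] R k L')
    (hh : ∀ l ∈ S, Top d' (d l) (h (X k l)) (h0 (X k l))) (hS : P ∈ Sup k (Ov S))
    (hP : Top d γ P P0) : Top d' γ (h P) (h0 P0) := by
  have hS0 := hP.mem hS
  have h1 : Top d' γ (h P0) (h0 P0) := by
    refine Sup_ind (p := fun Z => Top d' γ (h Z) (h0 Z)) (Sup_inter hP.1 hS0) ?_ ?_ ?_ ?_
    · intro u hu
      have := Top.map_wd h h0 hh u hu.2
      rwa [hu.1] at this
    · simpa using Top.of_Lt (Submodule.zero_mem _)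
    · intro x y hx hy
      simpa using hx.add hy
    · intro c x hx
      simpa using hx.smul c
  have h2 : h (P - P0) ∈ Lt k d' γ :=
    map_mem h.toLinearMap _ (fun u hu => Le_Lt hu.1 (Top.map_wd h h0 hh u hu.2).le)
      (Sup_inter hP.2 (Submodule.sub_mem _ hS hS0))
  simpa using (Top.of_Lt h2).add h1

theorem Top.map {d' : L' → G} (h h0 : R k L →ₐ[k] R k L')
    (hh : ∀ l, Top d' (d l) (h (X k l)) (h0 (X k l))) (hP : Top d γ P P0) :
    Top d' γ (h P) (h0 P0) :=
  Top.map_on h h0 (fun l _ => hh l) (mem_Ov_univ P) hP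

theorem Top.map_hm {d' : L' → G} (h : R k L →ₐ[k] R k L')
    (hh : ∀ l, h (X k l) ∈ Hm k d' (d l)) (hP : Top d γ P P0) : Top d' γ (h P) (h P0) :=
  Top.map h h (fun l => Top.of_Hm (hh l)) hP

end Deg

end

end Pool.Agent.Lib.MP_1cf7f7_al.All
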