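import Pool.Agent.Lib.MP_1cf7f7_al.All.Code

/-! Fixed elements of shifts, rigidity of homogeneous coactions, and left division. -/

namespace Pool.Agent.Lib.MP_1cf7f7_al.All

open MonoidAlgebra

noncomputable section

variable {k : Type} [Field k] {L : Type}

theorem coeff_X {l : L} {u : FreeMonoid L} (h : (X k l).coeff u ≠ 0) : u = FreeMonoid.of l :=
  mem_Sup.1 (wd_mem (s := {FreeMonoid.of l}) rfl) u h

theorem dg_ind_pos [DecidableEq L] {τ : L} {u : FreeMonoid L} (h : τ ∈ FreeMonoid.toList u) :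
    1 ≤ dg (fun l => if l = τ then (1 : ℚ) else 0) u := by
  simpa using (dg_nonneg (e := fun l => if l = τ then (1 : ℚ) else 0) (u := u)
    fun l _ => by positivity).2 τ h

/-- An element without `τ` that is fixed by `y ↦ y + m`, where all words of `m` contain `τ`, does
not contain `y`. -/
theorem fix_free [Fintype L] [DecidableEq L] {y τ : L} (hy : y ≠ τ) (Φ : R k L →ₐ[k] R k L)
    {m : R k L} (h1 : Φ (X k y) = X k y + m) (h2 : ∀ l, l ≠ y → Φ (X k l) = X k l) (hm : m ≠ 0)
    (hmτ : m ∈ Sup k {u | τ ∈ FreeMonoid.toList u}) (hmy : m ∈ Sup k (Ov {l | l ≠ y}))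
    {P : R k L} (hP : P ∈ Sup k (Ov {l | l ≠ τ})) (hf : Φ P = P) :
    P ∈ Sup k (Ov {l | l ≠ y}) := by
  let ε : R k L →ₐ[k] R k L := lf fun l => if l = y then 0 else X k l
  let σ : R k L →ₐ[k] R k L := lf fun l => if l = y then m else X k l
  have hε : ∀ Q ∈ Sup k (Ov {l | l ≠ y}), ε Q = Q := fun Q hQ =>
    hom_fix ε (fun l hl => by simp [ε, show l ≠ y from hl]) hQ
  have hσ : ∀ Q ∈ Sup k (Ov {l | l ≠ y}), σ Q = Q := fun Q hQ =>
    hom_fix σ (fun l hl => by simp [σ, show l ≠ y from hl]) hQ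
  have h3 : ε (Φ P) = σ P := by
    refine hom_ext (ε.comp Φ) σ (fun l => ?_) P
    by_cases hl : l = y
    · subst hl
      simp [h1, hε m hmy, ε, σ]
    · simp [h2 l hl, ε, σ, hl]
  have h4 : ε P ∈ Sup k (Ov {l | l ≠ y}) := by
    refine hom_Ov ε (fun l _ => ?_) (mem_Ov_univ P)
    by_cases hl : l = y
    · simp [ε, hl]
    · simpa [ε, hl] using X_mem (k := k) (S := {l | l ≠ y}) hl
  have h5 : ε P ∈ Sup k (Ov {l | l ≠ τ}) := by
    refine hom_Ov ε (fun l hl' => ?_) hP
    by_cases hl : l = y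
    · simp [ε, hl]
    · simpa [ε, hl] using X_mem (k := k) hl'
  have h6 : P - ε P = 0 := by
    refine inj_of_indep (Finset.univ.erase τ) σ (fun l _ => ?_) (fun w hw c hc => ?_)
      (Ov_mono (by simp [Set.subset_def]) (Submodule.sub_mem _ hP h5)) ?_
    · by_cases hl : l = y
      · simpa [σ, hl] using hm
      · simpa [σ, hl] using X_ne_zero l
    · have hw' : ∀ l, l ≠ τ → l ≠ y → w l = FreeMonoid.of l := fun l hl hl' =>
        coeff_X (k := k) (by simpa [σ, hl'] using hw l (by simp [hl]))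
      have hcy : c y = 0 := by
        have h7 := hc fun l => if l = τ then 1 else 0
        rw [Finset.sum_eq_single y (fun l hl hl' => by
          have hl2 : l ≠ τ := by simpa using hl
          simp [hw' l hl2 hl', hl2]) (by simp [hy])] at h7
        have h8 := dg_ind_pos (mem_Sup.1 hmτ (w y) (by simpa [σ] using hw y (by simp [hy])))
        exact (mul_eq_zero.1 h7).resolve_right (by linarith)
      intro i hi
      by_cases hiy : i = y
      · rw [hiy, hcy]
      · have h7 := hc fun l => if l = i then 1 else 0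
        rw [Finset.sum_eq_single i (fun l hl hl' => by
          by_cases hly : l = y
          · simp [hly, hcy]
          · simp [hw' l (by simpa using hl) hly, hl']) (fun h => absurd hi h)] at h7
        simpa [hw' i (by simpa using hi) hiy] using h7
    · rw [map_sub, hσ _ h4, ← h3, hf, sub_self]
  rw [sub_eq_zero.1 h6]
  exact h4

/-- A multihomogeneous polynomial coaction whose parameter has no positive degree is trivial. -/
theorem rigid [DecidableEq L] (S : Finset L) {τ : L} (hτ : τ ∉ S) (Φ sb : R k L →ₐ[k] R k L)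
    (e : L → L → ℚ) (he : ∀ j ∈ S, ∀ i ∈ S, e j i = if i = j then 1 else 0)
    (heτ : ∀ j ∈ S, e j τ ≤ 0) (h1 : Φ (X k τ) = X k τ)
    (h2 : ∀ z ∈ S, Φ (X k z) ∈ Sup k (Ov (insert τ S : Finset L)))
    (h3 : ∀ z ∈ S, ∀ j ∈ S, Φ (X k z) ∈ Hm k (e j) (e j z))
    (h4 : ∀ z ∈ S, Φ (X k z) - X k z ∈ Sup k {u | τ ∈ FreeMonoid.toList u})
    {c : k} (s1 : sb (X k τ) = c • X k τ) (s2 : ∀ z ∈ S, sb (X k z) = X k z)
    (h5 : ∀ z ∈ S, Φ (Φ (X k z)) = sb (Φ (X k z))) : ∀ z ∈ S, Φ (X k z) = X k z := by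
  let n : L → ℚ := fun l => if l = τ then 1 else 0
  have hne : ∀ z ∈ S, z ≠ τ := fun z hz h => hτ (h ▸ hz)
  have h0 : ∀ z ∈ S, Φ (X k z) ≠ 0 := by
    intro z hz h
    have h6 := h4 z hz
    rw [h, zero_sub, neg_mem_iff] at h6
    have h7 := mem_Sup.1 h6 (FreeMonoid.of z) (by simp [X, wd])
    exact hne z hz (by simpa [eq_comm] using h7)
  have hex : ∀ z, ∃ (γ : ℚ) (P0 : R k L), z ∈ S → Top n γ (Φ (X k z)) P0 ∧ P0 ≠ 0 := by
    intro z
    by_cases hz : z ∈ S
    · obtain ⟨γ, P0, h⟩ := exists_top n (h0 z hz)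
      exact ⟨γ, P0, fun _ => h⟩
    · exact ⟨0, 0, fun h => absurd h hz⟩
  choose lam T hT using hex
  have hlam : ∀ z ∈ S, 0 ≤ lam z := by
    intro z hz
    obtain ⟨u, hu⟩ := exists_coeff (hT z hz).2
    rw [← show dg n u = lam z from mem_Sup.1 (hT z hz).1.1 u hu]
    exact (dg_nonneg fun l _ => by simp only [n]; positivity).1
  have hκ : 1 ≤ 1 - ∑ j ∈ S, lam j * e j τ := by
    have : ∑ j ∈ S, lam j * e j τ ≤ 0 :=
      Finset.sum_nonpos fun j hj => mul_nonpos_of_nonneg_of_nonpos (hlam j hj) (heτ j hj)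
    linarith
  let d : L → ℚ := fun l => if l ∈ S then lam l else 1
  let g : R k L →ₐ[k] R k L := lf fun l => if l ∈ S then T l else X k l
  have htop : ∀ l ∈ ((insert τ S : Finset L) : Set L), Top n (d l) (Φ (X k l)) (g (X k l)) := by
    intro l hl
    rcases Finset.mem_insert.1 hl with rfl | hl
    · simpa [d, g, hτ, h1, n] using Top.of_Hm (X_Hm (k := k) n l)
    · simpa [d, g, hl] using (hT l hl).1
  have hinj : ∀ P ∈ Sup k (Ov ((insert τ S : Finset L) : Set L)), g P = 0 → P = 0 := by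
    intro P hP
    refine inj_of_indep _ g (fun l hl => ?_) (fun w hw c hc => ?_) hP
    · rcases Finset.mem_insert.1 hl with rfl | hl
      · simpa [g, hτ] using X_ne_zero l
      · simpa [g, hl] using (hT l hl).2
    · have hwτ : w τ = FreeMonoid.of τ := coeff_X (k := k) (by simpa [g, hτ] using hw τ (by simp))
      have hw2 : ∀ i ∈ S, (T i).coeff (w i) ≠ 0 := fun i hi => by
        simpa [g, hi] using hw i (by simp [hi])
      have hcj : ∀ j ∈ S, c j = -(c τ * e j τ) := by
        intro j hj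
        have h7 := hc (e j)
        rw [Finset.sum_insert hτ, hwτ, dg_of, Finset.sum_eq_single j (fun i hi hij => by
          rw [show dg (e j) (w i) = e j i from mem_Sup.1 ((hT i hi).1.mem (h3 i hi j hj)) _
            (hw2 i hi), he j hj i hi, if_neg hij, mul_zero]) (fun h => absurd hj h),
          show dg (e j) (w j) = e j j from mem_Sup.1 ((hT j hj).1.mem (h3 j hj j hj)) _
            (hw2 j hj), he j hj j hj, if_pos rfl] at h7
        linarith
      have hcτ : c τ = 0 := by
        have h7 := hc n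
        rw [Finset.sum_insert hτ, hwτ, dg_of, Finset.sum_congr rfl (fun i hi =>
          show c i * dg n (w i) = -c τ * (lam i * e i τ) by
            rw [show dg n (w i) = lam i from mem_Sup.1 (hT i hi).1.1 _ (hw2 i hi), hcj i hi]
            ring), ← Finset.mul_sum] at h7
        simp only [n, if_true] at h7
        have h8 : c τ * (1 - ∑ j ∈ S, lam j * e j τ) = 0 := by linarith
        exact (mul_eq_zero.1 h8).resolve_right (by linarith)
      intro i hi
      rcases Finset.mem_insert.1 hi with rfl | hi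
      · exact hcτ
      · simp [hcj i hi, hcτ]
  have hdeg : ∀ u ∈ Ov ((insert τ S : Finset L) : Set L), dg d u =
      ∑ j ∈ S, lam j * dg (e j) u + (1 - ∑ j ∈ S, lam j * e j τ) * dg n u := by
    refine Ov_ind (by simp) ?_
    intro l hl u _ ih
    simp only [dg_mul, dg_of, ih, mul_add, Finset.sum_add_distrib]
    have : d l = ∑ j ∈ S, lam j * e j l + (1 - ∑ j ∈ S, lam j * e j τ) * n l := by
      rcases Finset.mem_insert.1 hl with rfl | hl
      · simp [d, n, hτ]
      · rw [Finset.sum_eq_single l (fun j hj hjl => by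
          rw [he j hj l hl, if_neg (Ne.symm hjl), mul_zero]) (fun h => absurd hl h)]
        simp [d, n, hl, hne l hl, he l hl l hl]
    linarith
  intro z hz
  by_contra hc
  obtain ⟨u, hu⟩ := exists_coeff (sub_ne_zero.2 hc)
  have huτ := mem_Sup.1 (h4 z hz) u hu
  have hu2 : (Φ (X k z)).coeff u ≠ 0 := by
    intro h
    have h7 : (X k z).coeff u ≠ 0 := by simpa [h] using hu
    rw [coeff_X h7] at huτ
    exact hne z hz (by simpa [eq_comm] using huτ)
  have hlt : lam z < dg d u := by
    rw [hdeg u (mem_Sup.1 (h2 z hz) u hu2), Finset.sum_eq_single z (fun j hj hjz => by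
      rw [show dg (e j) u = e j z from mem_Sup.1 (h3 z hz j hj) u hu2, he j hj z hz,
        if_neg (Ne.symm hjz), mul_zero]) (fun h => absurd hz h),
      show dg (e z) u = e z z from mem_Sup.1 (h3 z hz z hz) u hu2, he z hz z hz, if_pos rfl]
    have := dg_ind_pos huτ
    nlinarith
  obtain ⟨γ, P0, hP, hP0⟩ := exists_top d (h0 z hz)
  have h8 := Top.map_on Φ g htop (h2 z hz) hP
  have h9 : Top n (lam z) (sb (Φ (X k z))) (sb (T z)) := by
    refine Top.map_on sb sb (fun l hl => Top.of_Hm ?_) (h2 z hz) (hT z hz).1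
    rcases Finset.mem_insert.1 hl with rfl | hl
    · rw [s1]
      exact Submodule.smul_mem _ _ (X_Hm n l)
    · rw [s2 l hl]
      exact X_Hm n l
  rw [h5 z hz] at h8
  exact hP0 (hinj P0 (hP.mem (h2 z hz)) (h8.unique (Top.of_Lt
    (Le_Lt (hlt.trans_le (mem_Sup.1 hP.le u hu2)) h9.le))))

theorem coeff_X_mul (a : L) (P : R k L) (u : FreeMonoid L) :
    (X k a * P).coeff (FreeMonoid.of a * u) = P.coeff u := by
  rw [X, wd, coeff_single_mul_eq_mul_coeff u (fun v _ => by simp), one_mul]

theorem mem_of_X_mul {a : L} {P : R k L} {s : Set (FreeMonoid L)} (h : X k a * P ∈ Sup k s) :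
    P ∈ Sup k {u | FreeMonoid.of a * u ∈ s} :=
  mem_Sup.2 fun u hu => mem_Sup.1 h _ (by rwa [coeff_X_mul])

/-- Left division by a letter. -/
theorem left_div {a : L} {P Y Z : R k L} (h : P * Y = X k a * Z) (hY : Y ≠ 0)
    (hP : P ∈ Sup k {u | u ≠ 1}) : ∃ Q, P = X k a * Q := by
  let s : Set (FreeMonoid L) := {u | (FreeMonoid.toList u).head? = some a}
  have h1 : ∀ Q ∈ Sup k s, ∃ Q', Q = X k a * Q' := by
    intro Q hQ
    refine map_mem LinearMap.id (LinearMap.range (LinearMap.mulLeft k (X k a))) ?_ hQ |>.imp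
      fun _ h => h.symm
    intro u hu
    induction u using FreeMonoid.inductionOn' with
    | one => simp [s] at hu
    | of_mul l u _ =>
      obtain rfl : l = a := by simpa [s] using hu
      exact ⟨wd k u, by simp [wd_mul, X]⟩
  obtain ⟨Q, hQ⟩ := h1 _ (Sup_mono (fun _ hu => hu.1) (fil_mem s P))
  have h2 : (P - fil s P) * Y ∈ Sup k s := by
    rw [sub_mul, h, hQ, mul_assoc, ← mul_sub]
    exact Sup_mul (s := {FreeMonoid.of a}) (fun u hu v _ => by simp [s, show u = _ from hu])
      (wd_mem rfl) (mem_Ov_univ _)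
  have h3 : (P - fil s P) * Y ∈ Sup k sᶜ := by
    refine Sup_mul (fun u hu v _ => ?_) (sub_fil_mem s P) (mem_Ov_univ _)
    have h4 := mem_Sup.1 hP u hu.2
    induction u using FreeMonoid.inductionOn' with
    | one => exact absurd rfl h4
    | of_mul l u _ => simpa [s] using hu.1
  have h5 := (mul_eq_zero.1 (Sup_eq_zero h2 h3 fun u h h' => h' h)).resolve_right hY
  exact ⟨Q, (sub_eq_zero.1 h5).trans hQ⟩

end

end Pool.Agent.Lib.MP_1cf7f7_al.All
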