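import Pool.Agent.Lib.MP_1cf7f7_al.All.Core

/-! Coordinate fields of automorphisms and their type. -/

namespace Pool.Agent.Lib.MP_1cf7f7_al.All

open FreeAlgebra

noncomputable section

variable {k : Type} [Field k] {ψ φ : A5 → R k A5} {r : Γ}

theorem TD.fix_of_mul (h : TD ψ φ r) {z z' : A5} (hz : z.nt) (hz' : z'.nt) {l l' : A4}
    (hl : l.nt) (hl' : l'.nt) (e : ph (X k z) = X k l) (e' : ph (X k z') = X k l')
    (hm : H 0 φ (X k z) * H 0 φ (X k z') = X k l * X k l') :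
    H 0 φ (X k z) = X k l ∧ H 0 φ (X k z') = X k l' := by
  let n : A4 → ℚ := fun l => if l = .t 0 then 1 else 0
  have h0 : H 0 φ (X k z) * H 0 φ (X k z') ≠ 0 := hm ▸ mul_ne_zero (X_ne_zero _) (X_ne_zero _)
  obtain ⟨γ, P, hP, hP0⟩ := exists_top n (left_ne_zero_of_mul h0)
  obtain ⟨δ, Q, hQ, hQ0⟩ := exists_top n (right_ne_zero_of_mul h0)
  have nn : ∀ {γ : ℚ} {P P0 : R k A4}, Top n γ P P0 → P0 ≠ 0 → 0 ≤ γ := fun ht h0 => by
    obtain ⟨u, hu⟩ := exists_coeff h0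
    rw [← show dg n u = _ from mem_Sup.1 ht.1 u hu]
    exact (dg_nonneg fun l _ => by simp only [n]; positivity).1
  have h1 : γ + δ ≤ 0 := by
    by_contra hc
    have h2 := hP.mul hQ
    rw [hm] at h2
    have h3 : X k l * X k l' ∈ Hm k n (n l + n l') := Hm_mul (X_Hm _ _) (X_Hm _ _)
    rw [show n l + n l' = 0 by cases l <;> cases l' <;> simp_all [n, A4.nt]] at h3
    exact mul_ne_zero hP0 hQ0 (h2.unique (Top.of_Lt (Le_Lt (not_le.1 hc) (Top.of_Hm h3).le)))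
  have key : ∀ {γ : ℚ} {z : A5} {l : A4} {P : R k A4}, z.nt → l.nt → ph (X k z) = X k l →
      Top n γ (H 0 φ (X k z)) P → γ ≤ 0 → H 0 φ (X k z) = X k l := by
    intro γ z l P hz hl e ht hγ
    have h5 : H 0 φ (X k z) - X k l ∈ Le k n 0 := sub_mem
      (Sup_mono (fun u hu => le_trans hu hγ) ht.le) (wd_mem (by cases l <;> simp_all [n, A4.nt]))
    refine sub_eq_zero.1 (Sup_eq_zero h5 (e ▸ h.H_has 0 hz) fun u hu hu' => ?_)
    have := dg_ind_pos hu'
    have : dg n u ≤ 0 := hu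
    linarith
  exact ⟨key hz hl e hP (by linarith [nn hQ hQ0]), key hz' hl' e' hQ (by linarith [nn hP hP0])⟩

theorem coord_core (h : TD ψ φ r) (hn : ∃ z, z.nt ∧ H 0 φ (X k z) ≠ ph (X k z))
    (hco : ∀ z, z.nt → ext 0 ψ (ext 0 ψ (X k z)) = pr5 2 id (ext 0 ψ (X k z))) {P : R k A5}
    (hP : pi P = pi (X k .a * X k .w + X k .x1)) (hf : ext 0 ψ P = P) : 0 < fs r := by
  by_contra hr
  have t0 : Top (dF fun _ => r) (d5 (fun _ => r) .a + d5 (fun _ => r) .w) (pi P)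
      (pt (X k .a * X k .w)) := by
    have t1 := (Top.of_Hm (Hm_mul (X_Hm (k := k) (d5 fun _ => r) .a) (X_Hm _ .w))).add
      (Top.of_Lt (P := X k .x1) (wd_mem (by
        simp only [Set.mem_ofPred_eq, dg_of, d5, mk_add]
        simp [All.mk, Prod.Lex.toLex_lt_toLex])))
    rw [add_zero] at t1
    exact hP ▸ top_pi t1
  have t1 := h.map (i := 0) rfl t0
  rw [hf] at t1
  obtain ⟨ha, hw⟩ := h.fix_of_mul (z := .a) (z' := .w) (l := .a) (l' := .w) trivial trivial trivial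
    trivial ph_a ph_w (by simpa [H] using rel_ph.eq (t1.unique t0))
  have e := h.relH 0
  rw [Rel, zero_smul, add_zero, ha] at e
  have hb0 : H 0 φ (X k .b) ≠ 0 := fun h0 => by
    have := h.H_has 0 (z := .b) trivial
    rw [h0, zero_sub, neg_mem_iff, ph_b] at this
    simpa using mem_Sup.1 this (FreeMonoid.of .b) (by simp [X, wd])
  have m1 := h.H_hm (i := 0) (ρ := fun _ => r) rfl (z := .x1) trivial
  obtain ⟨S, hS⟩ := left_div e hb0 (Sup_mono (fun u hu h1 => by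
    have h2 := congrArg c1 (show dg (d4 fun _ => r) u = d5 0 .x1 from hu)
    simp [h1, d5] at h2) m1)
  have h2 : H 0 φ (X k .x2) = S * H 0 φ (X k .b) :=
    mul_left_cancel₀ (X_ne_zero A4.a) (by rw [← e, hS, mul_assoc])
  obtain ⟨Φ, e1, e2, e3⟩ : ∃ Φ : R k A4 →ₐ[k] R k A4, Φ (X k .s) = S ∧
      Φ (X k .b) = H 0 φ (X k .b) ∧ ∀ l, l ≠ .s → l ≠ .b → Φ (X k l) = X k l :=
    ⟨lf fun l => if l = .s then S else if l = .b then H 0 φ (X k .b) else X k l, by simp, by simp,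
      fun l h1 h2 => by simp [h1, h2]⟩
  have e4 : ∀ Q, H 0 φ Q = Φ (ph Q) := hom_ext _ (Φ.comp ph) fun l => by
    cases l <;> simp [e1, e2, e3, ha, hw, hS, h2]
  have nfa : fa r ≤ 0 := not_lt.1 fun hf => hn.elim fun z hz => hz.2 (h.triv_fa 0 hf z hz.1)
  have nfb : fb r ≤ 0 := not_lt.1 fun hf => hn.elim fun z hz => hz.2 (h.triv_fb 0 hf z hz.1)
  have nfw : fw r ≤ 0 := not_lt.1 fun hf => by
    obtain ⟨Φ', m, hs, e'⟩ := h.typeW hf hn
    exact hs.ne (by simpa [e', hs.eq] using hw)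
  have o1 : ∀ Q : R k A4, Q ∈ Sup k (Ov {l | l.nt ∨ l = .t 0}) →
      Q ∈ Sup k (Ov {.t 0, A4.a, A4.b, A4.s, A4.w}) := fun Q =>
    Ov_mono fun l hl => by cases l <;> first | (simp; done) | simpa [A4.nt] using hl
  have o2 : ∀ z, z.nt → Φ (H 0 φ (X k z)) = pr4 2 id (H 0 φ (X k z)) := fun z hz =>
    (e4 _).symm.trans (h.coact hco hz)
  have := rigid4 (i := 0) (r := r) {.a, .b, .s, .w} (by simp [A4.nt]) Φ
    (by simp [ee, d4, nfa, nfb, nfw, not_lt.1 hr]) (by simp [e3])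
    (by simpa [e1, e2, e3] using ⟨X_mem (by simp), o1 _ (H_ov 0 φ (z := .b) trivial),
      o1 _ (Sup_mono (fun u hu => (Ov_mul.1 hu).2)
        (mem_of_X_mul (hS ▸ H_ov 0 φ (z := .x1) trivial))), X_mem (by simp)⟩)
    (by simpa [e1, e2, e3] using ⟨X_Hm _ _, h.H_hm (z := .b) rfl trivial,
      Sup_mono (fun u hu => add_left_cancel (a := d4 (fun _ => r) .a) (by
        simpa [d4, d5, mk_add] using hu)) (mem_of_X_mul (hS ▸ m1)), X_Hm _ _⟩)
    (by simpa [e1, e2, e3] using ⟨by simpa using h.H_has 0 (z := .b) trivial,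
      Sup_mono (fun u hu => by simpa using hu) (mem_of_X_mul (a := A4.a)
        (s := {u | .t 0 ∈ FreeMonoid.toList u}) (by
        simpa [hS, mul_sub] using h.H_has 0 (z := .x1) trivial))⟩)
    (by simpa [e1, e2, e3, pr4_nt, A4.nt] using ⟨o2 .b trivial,
      by simpa [hS, e3, pr4_nt, A4.nt, X_ne_zero] using o2 .x1 trivial⟩)
  obtain ⟨z, hz, hz'⟩ := hn
  have h3 : Φ (X k .b) = X k .b := this _ (by simp)
  have h4 : Φ (X k .s) = X k .s := this _ (by simp)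
  refine hz' ((e4 _).trans ?_)
  cases z <;> simp [h3, h4, e3]

/-- The generators as letters. -/
def inc : FreeAlgebra k (Fin 4) →ₐ[k] R k A5 :=
  FreeAlgebra.lift k ![X k .x1, X k .x2, X k .a, X k .b]

/-- `σ` shifts the coordinates `g z_i` by `ξ_i` times the parameter. -/
def IsFld (g : FreeAlgebra k (Fin 4) ≃ₐ[k] FreeAlgebra k (Fin 4)) (ξ : Fin 4 → k)
    (σ : FreeAlgebra k (Fin 4) →ₐ[k] R k A5) : Prop :=
  ∀ i, σ (g (ι k i)) = inc (g (ι k i)) + ξ i • X k (A5.t 0)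

/-- The five generators as elements of the free algebra. -/
def el (k : Type) [Field k] : A5 → FreeAlgebra k (Fin 4)
  | .x1 => ι k 0 | .x2 => ι k 1 | .a => ι k 2 | .b => ι k 3
  | .w => ι k 0 * ι k 3 - ι k 2 * ι k 1 | .t _ => 0

/-- The top part of the shift moves only `x₁, x₂`. -/
def XType (σ : FreeAlgebra k (Fin 4) →ₐ[k] R k A5) : Prop :=
  ∃ φ r, TD (fun z => σ (el k z)) φ r ∧ (∃ z, z.nt ∧ ∀ i, H i φ (X k z) ≠ ph (X k z)) ∧ 0 < fs r

variable {g : FreeAlgebra k (Fin 4) ≃ₐ[k] FreeAlgebra k (Fin 4)} {ξ ξ' : Fin 4 → k}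
  {σ σ' : FreeAlgebra k (Fin 4) →ₐ[k] R k A5}

theorem ext_g (g : FreeAlgebra k (Fin 4) ≃ₐ[k] FreeAlgebra k (Fin 4)) {B : Type} [Ring B]
    [Algebra k B] (F F' : FreeAlgebra k (Fin 4) →ₐ[k] B)
    (h : ∀ i, F (g (ι k i)) = F' (g (ι k i))) (x : FreeAlgebra k (Fin 4)) : F x = F' x := by
  have e : F.comp (g : FreeAlgebra k (Fin 4) →ₐ[k] FreeAlgebra k (Fin 4)) =
      F'.comp (g : FreeAlgebra k (Fin 4) →ₐ[k] FreeAlgebra k (Fin 4)) :=
    FreeAlgebra.hom_ext (funext h)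
  simpa using DFunLike.congr_fun e (g.symm x)

theorem pr5_inc (c : k) (m : Fin 3 → Fin 3) (x : FreeAlgebra k (Fin 4)) :
    pr5 c m (inc x) = inc x :=
  ext_g 1 ((pr5 c m).comp inc) inc (fun i => by fin_cases i <;> simp [inc, pr5]) x

theorem ext_inc (σ : FreeAlgebra k (Fin 4) →ₐ[k] R k A5) (i : Fin 3)
    (x : FreeAlgebra k (Fin 4)) :
    ext i (fun z => σ (el k z)) (inc x) = pr5 1 (fun _ => i) (σ x) :=
  ext_g 1 ((ext i fun z => σ (el k z)).comp inc) ((pr5 1 fun _ => i).comp σ)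
    (fun i => by fin_cases i <;> simp [inc, ext, el]) x

theorem pi_el {z : A5} (hz : z.nt) : pi (inc (el k z)) = pi (X k z) := by
  cases z <;> first | exact hz.elim | simp [inc, el]
  have := rel_pi (k := k)
  rw [Rel] at this
  simp [this]

theorem IsFld.one (h : IsFld g ξ σ) (x : FreeAlgebra k (Fin 4)) :
    pr5 1 (fun _ => 0) (σ x) = σ x :=
  ext_g g ((pr5 1 fun _ => 0).comp σ) σ (fun i => by simp [h i, pr5_inc]) x

theorem IsFld.exists_TD (h : IsFld g ξ σ) (hξ : ξ ≠ 0) : ∃ φ r, TD (fun z => σ (el k z)) φ r ∧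
    ∃ z, z.nt ∧ ∀ i, H i φ (X k z) ≠ ph (X k z) := by
  refine All.exists_TD (by simp [el]) (fun z hz => ?_) (fun z _ => h.one _) ?_
  · rw [← pi_el hz]
    exact congrArg pi (ext_g g ((pr5 0 id).comp σ) inc (fun i => by simp [h i, pr5_inc]) _)
  · by_contra hc
    push Not at hc
    have h1 := ext_g 1 (pi.comp σ) (pi.comp inc) (fun i => by
      have := fun z hz => (hc z hz).trans (pi_el hz).symm
      fin_cases i
      exacts [this .x1 trivial, this .x2 trivial, this .a trivial, this .b trivial])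
    refine hξ (funext fun i => ?_)
    have h2 := h1 (g (ι k i))
    simpa [h i, pi, X_ne_zero] using h2

theorem IsFld.coact (h : IsFld g ξ σ) (i : Fin 3) (z : A5) (hz : z.nt) :
    ext i (fun z => σ (el k z)) (ext i (fun z => σ (el k z)) (X k z)) =
      pr5 2 id (ext i (fun z => σ (el k z)) (X k z)) := by
  rw [ext_nt i _ hz]
  exact ext_g g ((ext i fun z => σ (el k z)).comp ((pr5 1 fun _ => i).comp σ))
    ((pr5 2 id).comp ((pr5 1 fun _ => i).comp σ)) (fun j => by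
      simp [h j, pr5_inc, ext_inc, two_smul, add_assoc]) _

theorem side (h : IsFld g ξ σ) (h' : IsFld g ξ' σ') (l : Fin 4 → k)
    (hl : ∑ i, l i * ξ i = 1) (hl' : ∑ i, l i * ξ' i = 0) (hξ' : ξ' ≠ 0) (hX : XType σ) :
    XType σ' := by
  obtain ⟨φ, r, hT, hn, hr⟩ := hX
  obtain ⟨φ', r', hT', hn'⟩ := h'.exists_TD hξ'
  refine ⟨φ', r', hT', hn', side_core hT hT' (hn.imp fun z hz => ⟨hz.1, hz.2 0⟩)
    (hn'.imp fun z hz => ⟨hz.1, hz.2 1⟩) (fun z hz => ?_) (h'.coact 1)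
    (u := inc (∑ i, l i • g (ι k i))) (pr5_inc _ _ _) ?_ ?_ hr⟩
  · rw [ext_nt 1 _ hz, ext_nt 0 _ hz]
    exact ext_g g ((ext 0 fun z => σ (el k z)).comp ((pr5 1 fun _ => 1).comp σ'))
      ((ext 1 fun z => σ' (el k z)).comp ((pr5 1 fun _ => 0).comp σ)) (fun j => by
        simp [h j, h' j, pr5_inc, ext_inc, add_right_comm]) _
  · rw [ext_inc, h.one]
    simp only [map_sum, map_smul, h _, smul_add, Finset.sum_add_distrib, smul_smul,
      ← Finset.sum_smul, hl, one_smul]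
  · rw [ext_inc]
    simp only [map_sum, map_smul, h' _, smul_add, Finset.sum_add_distrib, smul_smul,
      ← Finset.sum_smul, hl', zero_smul, add_zero, map_add, pr5_inc]

theorem std_not (h : IsFld (k := k) 1 (Pi.single 2 1) σ) : ¬ XType σ := by
  rintro ⟨φ, r, hT, ⟨z, hz, hn⟩, hr⟩
  have key : ∀ z, z.nt → σ (el k z) = X k z → H 0 φ (X k z) = ph (X k z) := fun z hz e => by
    have h1 := hT.letter (ρ := fun _ => r) (i := 0) rfl z
    rw [ext_nt 0 (fun z => σ (el k z)) hz, e, pr5_nt hz] at h1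
    exact rel_ph.eq (h1.unique (top_pi (Top.of_Hm (X_Hm _ _))))
  refine hn 0 ?_
  cases z
  · exact key _ hz (by simpa [inc, el] using h 0)
  · exact key _ hz (by simpa [inc, el] using h 1)
  · exact hT.fixes 0 fs fs_nn hr hz (by simp [d5])
  · exact hT.fixes 0 fs fs_nn hr hz (by simp [d5])
  · exact hT.fixes 0 fs fs_nn hr hz (by simp [d5])
  · exact hz.elim

theorem coord (h : IsFld g ξ σ) (hξ : ξ ≠ 0)
    (hf : σ (ι k 0 + ι k 2 * (ι k 0 * ι k 3 - ι k 2 * ι k 1)) =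
      inc (ι k 0 + ι k 2 * (ι k 0 * ι k 3 - ι k 2 * ι k 1))) : XType σ := by
  obtain ⟨φ, r, hT, hn⟩ := h.exists_TD hξ
  refine ⟨φ, r, hT, hn, coord_core hT (hn.imp fun z hz => ⟨hz.1, hz.2 0⟩) (h.coact 0)
    (P := inc (ι k 0 + ι k 2 * (ι k 0 * ι k 3 - ι k 2 * ι k 1))) ?_ ?_⟩
  · have := pi_el (k := k) (z := .w) trivial
    simp only [map_add, map_mul, ← this, el]
    simp [inc, add_comm]
  · rw [ext_inc, hf, pr5_inc]

end

end Pool.Agent.Lib.MP_1cf7f7_al.All
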