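import Pool.Agent.Lib.MP_1cf7f7_al.All.Side
import Pool.Agent.Lib.MP_1cf7f7_al.Defs

/-! No tame automorphism has the first coordinate of Yagzhev's map. -/

namespace Pool.Agent.Lib.MP_1cf7f7_al.All

open FreeAlgebra

variable {k : Type} [Field k]

theorem exists_fld (g : FreeAlgebra k (Fin 4) ≃ₐ[k] FreeAlgebra k (Fin 4)) (ξ : Fin 4 → k) :
    ∃ σ, IsFld g ξ σ :=
  ⟨(FreeAlgebra.lift k fun i => inc (g (ι k i)) + ξ i • X k (A5.t 0)).comp
    (g.symm : FreeAlgebra k (Fin 4) →ₐ[k] FreeAlgebra k (Fin 4)), fun i => by simp⟩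

theorem link {g ξ ξ' σ σ'} (h : IsFld (k := k) g ξ σ) (h' : IsFld g ξ' σ') (hξ : ξ ≠ 0)
    (hξ' : ξ' ≠ 0) (hX : XType σ) : XType σ' := by
  obtain ⟨i, hi⟩ := Function.ne_iff.1 hξ
  obtain ⟨j, hj⟩ := Function.ne_iff.1 hξ'
  simp only [Pi.zero_apply] at hi hj
  obtain ⟨m, hmi, hmj⟩ : ∃ m : Fin 4, m ≠ i ∧ m ≠ j := by clear hi hj; revert i j; decide
  obtain ⟨τ, hτ⟩ := exists_fld g (Pi.single m 1)
  have h1 : XType τ := side h hτ (Pi.single i (ξ i)⁻¹) (by simp [Pi.single_apply, hi])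
    (by simp [Pi.single_apply, hmi]) (by simp) hX
  exact side hτ h' (Pi.single m 1 - Pi.single j (ξ' m * (ξ' j)⁻¹))
    (by simp [Pi.single_apply, hmj])
    (by simp [Pi.single_apply, sub_mul, Finset.sum_sub_distrib, hj]) hξ' h1

/-- No coordinate field of the state `g` is of type X. -/
def Good (g : FreeAlgebra k (Fin 4) ≃ₐ[k] FreeAlgebra k (Fin 4)) : Prop :=
  ∀ ξ σ, ξ ≠ 0 → IsFld g ξ σ → ¬ XType σ

theorem good_iff {g g' ξ ξ' σ} (h : IsFld (k := k) g ξ σ) (h' : IsFld g' ξ' σ) (hξ : ξ ≠ 0)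
    (hξ' : ξ' ≠ 0) : Good g ↔ Good g' :=
  ⟨fun H _ _ h1 h2 hX => H _ _ hξ h (link h2 h' h1 hξ' hX),
    fun H _ _ h1 h2 hX => H _ _ hξ' h' (link h2 h h1 hξ hX)⟩

theorem eq_zero_of_fld {g g' ξ σ} (h : IsFld (k := k) g ξ σ) (h' : IsFld g' 0 σ) : ξ = 0 := by
  have e : σ.comp (g' : FreeAlgebra k (Fin 4) →ₐ[k] FreeAlgebra k (Fin 4)) =
      inc.comp (g' : FreeAlgebra k (Fin 4) →ₐ[k] FreeAlgebra k (Fin 4)) := by
    apply FreeAlgebra.hom_ext
    funext i
    simpa using h' i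
  funext i
  have e1 : σ (g (ι k i)) = inc (g (ι k i)) := by
    simpa using DFunLike.congr_fun e (g'.symm (g (ι k i)))
  have e2 := h i
  rw [e1, left_eq_add, smul_eq_zero] at e2
  exact e2.resolve_right (by simp [X, wd])

theorem good_mul (g h : FreeAlgebra k (Fin 4) ≃ₐ[k] FreeAlgebra k (Fin 4))
    (hh : IsLinear h ∨ IsElementary h) : Good g ↔ Good (g * h) := by
  rcases hh with hh | ⟨i, c, f, hc, hf, hi, hj⟩
  · choose c hc using fun i => (Submodule.mem_span_range_iff_exists_fun k).1 (hh i)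
    obtain ⟨σ, hσ⟩ := exists_fld g (Pi.single 0 1)
    have h' : IsFld (g * h) (fun i => ∑ j, c i j * (Pi.single 0 1 : Fin 4 → k) j) σ := by
      intro i
      rw [AlgEquiv.mul_apply, ← hc i]
      simp only [map_sum, map_smul, hσ _, smul_add, Finset.sum_add_distrib, Finset.sum_smul,
        smul_smul]
    refine good_iff hσ h' (by simp) fun h0 => ?_
    rw [h0] at h'
    exact absurd (eq_zero_of_fld hσ h') (by simp)
  · obtain ⟨σ, hσ⟩ := exists_fld g (Pi.single i 1)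
    have h1 : ∀ j, j ≠ i → σ (g (ι k j)) = inc (g (ι k j)) := fun j hj => by
      simpa [hj] using hσ j
    have h2 : σ (g f) = inc (g f) := by
      clear hi
      induction hf using Algebra.adjoin_induction with
      | mem x hx => obtain ⟨j, hj, rfl⟩ := hx; exact h1 j hj
      | algebraMap r => simp
      | add x y _ _ hx hy => simp [hx, hy]
      | mul x y _ _ hx hy => simp [hx, hy]
    refine good_iff (ξ' := Pi.single i c) hσ (fun j => ?_) (by simp) (by simpa using hc)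
    rw [AlgEquiv.mul_apply]
    by_cases e : j = i
    · subst e
      simp only [hi, map_add, map_smul, hσ j, h2, Pi.single_eq_same, smul_add, one_smul]
      abel
    · simp [hj j e, h1 j e, e]

theorem good_of_tame {g} (hg : g ∈ Tame k 4) : Good g := by
  induction hg using Subgroup.closure_induction_right with
  | one =>
    obtain ⟨σ, hσ⟩ := exists_fld (k := k) 1 (Pi.single 2 1)
    exact fun _ _ h1 h2 hX => std_not hσ (link h2 hσ h1 (by simp) hX)
  | mul_right x _ y hy ih => exact (good_mul x y hy).1 ih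
  | mul_inv_cancel x _ y hy ih => exact (good_mul _ y hy).2 (by simpa using ih)

theorem not_tame (g) (hg : g ∈ Tame k 4) :
    g (ι k 0) ≠ ι k 0 + ι k 2 * (ι k 0 * ι k 3 - ι k 2 * ι k 1) := by
  intro h
  obtain ⟨σ, hσ⟩ := exists_fld g (Pi.single 1 1)
  refine good_of_tame hg _ σ (by simp) hσ (coord hσ (by simp) ?_)
  rw [← h]
  simpa using hσ 0

end Pool.Agent.Lib.MP_1cf7f7_al.All
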