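import Pool.Agent.Lib.MP_1cf7f7_al.All.Free

/-! The filtration on `k⟨x₁, x₂, a, b⟩` whose graded algebra is generated by `as, sb, a, b, w`. -/

namespace Pool.Agent.Lib.MP_1cf7f7_al.All

noncomputable section

variable {k : Type} [Field k]

/-- Five generators and three parameters. -/
inductive A5 | x1 | x2 | a | b | w | t (i : Fin 3)
  deriving DecidableEq, Fintype

/-- Four free letters and three parameters. -/
inductive A4 | a | b | s | w | t (i : Fin 3)
  deriving DecidableEq, Fintype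

/-- The letter is not a parameter. -/
def A5.nt : A5 → Prop
  | .t _ => False
  | _ => True

/-- The letter is not a parameter. -/
def A4.nt : A4 → Prop
  | .t _ => False
  | _ => True

/-- The group of degrees. -/
abbrev Γ : Type := ℚ ×ₗ ℚ ×ₗ ℚ ×ₗ ℚ

/-- A degree given by coordinates. -/
def mk (p q r s : ℚ) : Γ := toLex (p, toLex (q, toLex (r, s)))

theorem mk_add (p q r s p' q' r' s' : ℚ) :
    mk p q r s + mk p' q' r' s' = mk (p + p') (q + q') (r + r') (s + s') := rfl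

/-- First coordinate. -/
def c1 : Γ →+ ℚ := ⟨⟨fun γ => (ofLex γ).1, rfl⟩, fun _ _ => rfl⟩
/-- Degree in `a`. -/
def fa : Γ →+ ℚ := ⟨⟨fun γ => (ofLex (ofLex γ).2).1, rfl⟩, fun _ _ => rfl⟩
/-- Degree in `w`. -/
def fw : Γ →+ ℚ := ⟨⟨fun γ => (ofLex (ofLex (ofLex γ).2).2).1, rfl⟩, fun _ _ => rfl⟩
/-- Degree in `b`. -/
def fb : Γ →+ ℚ := ⟨⟨fun γ => (ofLex (ofLex (ofLex γ).2).2).2, rfl⟩, fun _ _ => rfl⟩
/-- Degree in `s`. -/
def fs : Γ →+ ℚ := c1 - fw

@[simp] theorem c1_mk (p q r s : ℚ) : c1 (mk p q r s) = p := rfl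
@[simp] theorem fa_mk (p q r s : ℚ) : fa (mk p q r s) = q := rfl
@[simp] theorem fw_mk (p q r s : ℚ) : fw (mk p q r s) = r := rfl
@[simp] theorem fb_mk (p q r s : ℚ) : fb (mk p q r s) = s := rfl
@[simp] theorem fs_mk (p q r s : ℚ) : fs (mk p q r s) = p - r := rfl

theorem c1_mono {γ δ : Γ} (h : γ ≤ δ) : c1 γ ≤ c1 δ := Prod.Lex.monotone_fst _ _ h

/-- Degrees of the five generators. -/
def d5 (ρ : Fin 3 → Γ) : A5 → Γ
  | .x1 => mk 1 1 0 0 | .x2 => mk 1 0 0 1 | .a => mk 0 1 0 0 | .b => mk 0 0 0 1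
  | .w => mk 1 0 1 0 | .t i => ρ i

/-- Degrees of the four free letters. -/
def d4 (ρ : Fin 3 → Γ) : A4 → Γ
  | .a => mk 0 1 0 0 | .b => mk 0 0 0 1 | .s => mk 1 0 0 0 | .w => mk 1 0 1 0 | .t i => ρ i

/-- Degrees of the four free letters when `w` stands for `w b⁻¹`. -/
def dF (ρ : Fin 3 → Γ) : A4 → Γ
  | .a => mk 0 1 0 0 | .b => mk 0 0 0 1 | .s => mk 1 0 0 0 | .w => mk 1 0 1 (-1) | .t i => ρ i

theorem d5_nt {z : A5} (hz : z.nt) (ρ ρ' : Fin 3 → Γ) : d5 ρ z = d5 ρ' z := by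
  cases z <;> first | rfl | exact hz.elim

/-- The embedding. -/
def pi : R k A5 →ₐ[k] R k A4 := lf fun
  | .x1 => X k .a * X k .s + X k .w | .x2 => X k .s * X k .b | .a => X k .a | .b => X k .b
  | .w => X k .w * X k .b | .t i => X k (.t i)

/-- Leading words of the generators. -/
def pl : A5 → List A4
  | .x1 => [.a, .s] | .x2 => [.s, .b] | .a => [.a] | .b => [.b] | .w => [.w, .b] | .t i => [.t i]

/-- The top part of the embedding. -/
def pt : R k A5 →ₐ[k] R k A4 := lf fun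
  | .x1 => X k .a * X k .s | .x2 => X k .s * X k .b | .a => X k .a | .b => X k .b
  | .w => X k .w * X k .b | .t i => X k (.t i)

/-- The graded algebra inside the free algebra on `a, b, s, w`. -/
def ph : R k A5 →ₐ[k] R k A4 := lf fun
  | .x1 => X k .a * X k .s | .x2 => X k .s * X k .b | .a => X k .a | .b => X k .b
  | .w => X k .w | .t i => X k (.t i)

theorem pt_of_ph {P Q : R k A5} (h : ph P = ph Q) : pt P = pt Q := by
  obtain ⟨κ, hκ⟩ : ∃ κ : R k A4 →ₐ[k] R k A4, ∀ l, κ (X k l) =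
      if l = .w then X k A4.w * X k .b else X k l := ⟨lf _, fun l => lf_X _ l⟩
  have : ∀ P : R k A5, pt P = (κ.comp ph) P :=
    hom_ext pt (κ.comp ph) (fun l => by cases l <;> simp [pt, ph, hκ])
  rw [this, this, AlgHom.comp_apply, AlgHom.comp_apply, h]

/-- Words without the factor `x₁ b`. -/
def nm : List A5 → Prop
  | [] => True
  | l :: r => (l = .x1 → r.head? ≠ some .b) ∧ nm r

/-- Normal words. -/
def Nm : Set (FreeMonoid A5) := {u | nm (FreeMonoid.toList u)}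

theorem nm_cons {l : A5} {v : FreeMonoid A5}
    (h : l = .x1 → (FreeMonoid.toList v).head? ≠ some .b) (hv : v ∈ Nm) :
    FreeMonoid.of l * v ∈ Nm := And.intro h hv

/-- The leading word of a word. -/
def im : List A5 → List A4
  | [] => []
  | l :: r => pl l ++ im r

theorem im_s {v : List A5} {r : List A4} (h : .s :: r = im v) : ∃ r', r = .b :: r' := by
  rcases v with _ | ⟨l, v⟩
  · simp [im] at h
  · cases l <;> simp [im, pl] at h
    exact ⟨_, h⟩

theorem im_b {v : List A5} {r : List A4} (h : im v = .b :: r) : v.head? = some .b := by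
  rcases v with _ | ⟨l, v⟩
  · simp [im] at h
  · cases l <;> simp [im, pl] at h ⊢

theorem im_inj : ∀ u v : List A5, nm u → nm v → im u = im v → u = v
  | [], [], _, _, _ => rfl
  | [], l :: v, _, _, h => by cases l <;> simp [im, pl] at h
  | l :: u, [], _, _, h => by cases l <;> simp [im, pl] at h
  | l :: u, l' :: v, hu, hv, h => by
    have ih := im_inj u v hu.2 hv.2
    cases l <;> cases l' <;> simp only [im, pl, List.cons_append, List.nil_append,
      List.cons.injEq, reduceCtorEq, false_and, true_and, A4.t.injEq] at h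
    all_goals first
      | rw [ih h]
      | (obtain ⟨r, hr⟩ := im_s h; exact absurd (im_b hr) (hu.1 rfl))
      | (obtain ⟨r, hr⟩ := im_s h.symm; exact absurd (im_b hr) (hv.1 rfl))
      | rw [h.1, ih h.2]

theorem pt_wd (u : FreeMonoid A5) :
    pt (wd k u) = wd k (FreeMonoid.ofList (im (FreeMonoid.toList u))) := by
  induction u using FreeMonoid.inductionOn' with
  | one => simp [wd_one, im]
  | of_mul l u ih =>
    rw [wd_mul, map_mul, ih]
    change pt (X k l) * _ = wd k (FreeMonoid.ofList (pl l) * _)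
    rw [wd_mul]
    congr 1
    cases l <;> simp [pt, pl, X, ← wd_mul] <;> simp [← X.eq_def, FreeMonoid.ofList_cons, wd_mul]

theorem pt_inj {P : R k A5} (hP : P ∈ Sup k Nm) (h : pt P = 0) : P = 0 := by
  classical
  have : ∀ u ∈ Nm, (pt P).coeff (FreeMonoid.ofList (im (FreeMonoid.toList u))) = P.coeff u := by
    intro u hu
    refine Sup_ind (p := fun P => (pt P).coeff (FreeMonoid.ofList (im (FreeMonoid.toList u))) =
      P.coeff u) hP (fun v hv => ?_) (by simp) (fun x y hx hy => by simp [hx, hy])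
      (fun c x hx => by simp [hx])
    rw [pt_wd]
    simp only [wd, MonoidAlgebra.coeff_single, Finsupp.single_apply]
    congr 1
    exact propext ⟨fun h => im_inj _ _ hv hu (FreeMonoid.ofList.injective h), fun h => by rw [h]⟩
  by_contra h0
  obtain ⟨u, hu⟩ := exists_coeff h0
  exact hu (by rw [← this u (mem_Sup.1 hP u hu), h]; simp)

/-- The map respects the relation `x₁ b = a x₂ + c w`. -/
def Rel (c : k) (h : R k A5 →ₐ[k] R k A4) : Prop :=
  h (X k .x1) * h (X k .b) = h (X k .a) * h (X k .x2) + c • h (X k .w)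

theorem nf_ind (c : k) {s : Set (FreeMonoid A5)} (F : R k A5 →ₗ[k] R k A5)
    (hw : ∀ u ∈ s, ∃ Q ∈ Sup k Nm, ∀ h, Rel c h → h (F (wd k u)) = h Q) {P : R k A5}
    (hP : P ∈ Sup k s) : ∃ Q ∈ Sup k Nm, ∀ h, Rel c h → h (F P) = h Q := by
  refine Sup_ind (p := fun P => ∃ Q ∈ Sup k Nm, ∀ h, Rel c h → h (F P) = h Q) hP hw
    ⟨0, by simp, by simp⟩ ?_ ?_
  · rintro x y ⟨Q, hQ, h1⟩ ⟨Q', hQ', h2⟩
    exact ⟨Q + Q', add_mem hQ hQ', fun h hr => by simp [h1 h hr, h2 h hr]⟩
  · rintro a x ⟨Q, hQ, h1⟩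
    exact ⟨a • Q, Submodule.smul_mem _ _ hQ, fun h hr => by simp [h1 h hr]⟩

theorem nf (c : k) (P : R k A5) : ∃ Q ∈ Sup k Nm, ∀ h, Rel c h → h P = h Q := by
  refine nf_ind c LinearMap.id (fun u _ => ?_) (mem_Ov_univ P)
  induction u using FreeMonoid.inductionOn' with
  | one => exact ⟨_, wd_mem (u := 1) trivial, fun _ _ => rfl⟩
  | of_mul l u ih =>
    obtain ⟨Q, hQ, h1⟩ := ih (Ov_univ u)
    obtain ⟨Q', hQ', h2⟩ := nf_ind c (LinearMap.mulLeft k (X k l)) (fun v hv => by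
      by_cases hl : l = .x1 ∧ (FreeMonoid.toList v).head? = some .b
      · induction v using FreeMonoid.inductionOn' with
        | one => simp at hl
        | of_mul l' v _ =>
          obtain rfl : l' = .b := by simpa using hl.2
          refine ⟨wd k (.of .a * (.of .x2 * v)) + c • wd k (.of .w * v), add_mem
            (wd_mem (nm_cons (by simp) (nm_cons (by simp) hv.2)))
            (Submodule.smul_mem _ _ (wd_mem (nm_cons (by simp) hv.2))),
            fun h hr => ?_⟩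
          simp only [hl.1, LinearMap.mulLeft_apply, wd_mul, map_mul, map_add, map_smul,
            ← X.eq_def, ← mul_assoc]
          rw [hr, add_mul, smul_mul_assoc]
      · exact ⟨wd k (.of l * v), wd_mem (nm_cons (by simpa using hl) hv), fun h _ => by
          simp [wd_mul, X]⟩) hQ
    refine ⟨Q', hQ', fun h hr => ?_⟩
    rw [← h2 h hr]
    simpa [wd_mul, X] using congrArg (h (X k l) * ·) (h1 h hr)

theorem rel_pi : Rel (1 : k) pi := by
  simp only [Rel, pi, lf_X, one_smul]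
  noncomm_ring

theorem rel_pt : Rel (0 : k) pt := by simp [Rel, pt, mul_assoc]

theorem rel_ph : Rel (0 : k) ph := by simp [Rel, ph, mul_assoc]

theorem Rel.eq {h : R k A5 →ₐ[k] R k A4} (hr : Rel 0 h) {P Q : R k A5} (e : pt P = pt Q) :
    h P = h Q := by
  obtain ⟨Z, hZ, h1⟩ := nf 0 (P - Q)
  have h2 := h1 h hr
  rw [pt_inj hZ (by rw [← h1 pt rel_pt, map_sub, e, sub_self]), map_sub, map_zero] at h2
  exact sub_eq_zero.1 h2

theorem Rel.eq' {h : R k A5 →ₐ[k] R k A4} (hr : Rel 0 h) {P Q : R k A5} (e : ph P = ph Q) :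
    h P = h Q := hr.eq (pt_of_ph e)

theorem Hm_cast {L : Type} {d : L → Γ} {γ δ : Γ} {P : R k L} (h : P ∈ Hm k d γ) (e : γ = δ) :
    P ∈ Hm k d δ := e ▸ h

theorem top_pi {ρ : Fin 3 → Γ} {γ : Γ} {Q Q0 : R k A5} (h : Top (d5 ρ) γ Q Q0) :
    Top (dF ρ) γ (pi Q) (pt Q0) := by
  refine Top.map pi pt (fun l => ?_) h
  cases l <;> simp only [pi, pt, lf_X]
  · have h1 : Top (dF ρ) (d5 ρ .x1) (X k A4.a * X k .s) (X k .a * X k .s) :=
      Top.of_Hm (Hm_cast (Hm_mul (X_Hm _ _) (X_Hm _ _)) (by simp [dF, d5, mk_add]))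
    simpa using h1.add (Top.of_Lt (P := X k .w) (wd_mem (by
      simp [dF, d5, mk, Prod.Lex.toLex_lt_toLex])))
  · exact Top.of_Hm (Hm_cast (Hm_mul (X_Hm _ _) (X_Hm _ _)) (by simp [dF, d5, mk_add]))
  · exact Top.of_Hm (Hm_cast (X_Hm (dF ρ) _) rfl)
  · exact Top.of_Hm (Hm_cast (X_Hm (dF ρ) _) rfl)
  · exact Top.of_Hm (Hm_cast (Hm_mul (X_Hm _ _) (X_Hm _ _)) (by simp [dF, d5, mk_add]))
  · exact Top.of_Hm (Hm_cast (X_Hm (dF ρ) _) rfl)

theorem ph_Hm {ρ : Fin 3 → Γ} {γ : Γ} {Q : R k A5} (h : Q ∈ Hm k (d5 ρ) γ) :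
    ph Q ∈ Hm k (d4 ρ) γ := by
  refine (Top.map_hm ph (fun l => ?_) (Top.of_Hm h)).1
  cases l <;> simp only [ph, lf_X]
  · exact Hm_cast (Hm_mul (X_Hm _ _) (X_Hm _ _)) (by simp [d4, d5, mk_add])
  · exact Hm_cast (Hm_mul (X_Hm _ _) (X_Hm _ _)) (by simp [d4, d5, mk_add])
  all_goals exact Hm_cast (X_Hm (d4 ρ) _) rfl

theorem exists_lift {ρ : Fin 3 → Γ} {γ : Γ} {Q : R k A5} (hQ : Q ∈ Sup k Nm)
    (h : pi Q ∈ Le k (dF ρ) γ) : ∃ Q0, Top (d5 ρ) γ Q Q0 := by
  by_cases h0 : Q = 0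
  · subst h0
    exact ⟨0, Top.of_Hm (Submodule.zero_mem _)⟩
  obtain ⟨δ, Q0, h1, h2⟩ := exists_top (d5 ρ) h0
  rcases le_or_gt δ γ with h3 | h3
  · exact ⟨_, top_fil (Sup_mono (fun _ hu => le_trans hu h3) h1.le)⟩
  · exact absurd (pt_inj (h1.mem hQ) ((top_pi h1).unique (Top.of_Lt (Le_Lt h3 h)))) h2

end

end Pool.Agent.Lib.MP_1cf7f7_al.All
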