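import Pool.Agent.Lib.MP_1cf7f7_al.All.Tilde

/-! Top parts of one-parameter families of endomorphisms. -/

namespace Pool.Agent.Lib.MP_1cf7f7_al.All

noncomputable section

variable {k : Type} [Field k]

/-- Rescaling and renaming the parameters. -/
def pr5 (c : k) (m : Fin 3 → Fin 3) : R k A5 →ₐ[k] R k A5 := lf fun
  | .t j => c • X k (.t (m j))
  | l => X k l

/-- Rescaling and renaming the parameters. -/
def pr4 (c : k) (m : Fin 3 → Fin 3) : R k A4 →ₐ[k] R k A4 := lf fun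
  | .t j => c • X k (.t (m j))
  | l => X k l

variable {c : k} {m : Fin 3 → Fin 3}

@[simp] theorem pr5_t (j : Fin 3) : pr5 c m (X k (.t j)) = c • X k (.t (m j)) := lf_X _ _

@[simp] theorem pr4_t (j : Fin 3) : pr4 c m (X k (.t j)) = c • X k (.t (m j)) := lf_X _ _

theorem pr5_nt {z : A5} (hz : z.nt) : pr5 c m (X k z) = X k z := by
  cases z <;> first | exact lf_X _ _ | exact hz.elim

theorem pr4_nt {z : A4} (hz : z.nt) : pr4 c m (X k z) = X k z := by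
  cases z <;> first | exact lf_X _ _ | exact hz.elim

theorem A5.nt_or (z : A5) : z.nt ∨ ∃ j, z = .t j := by cases z <;> simp [A5.nt]

theorem A4.nt_or (z : A4) : z.nt ∨ ∃ j, z = .t j := by cases z <;> simp [A4.nt]

theorem pi_pr (P : R k A5) : pi (pr5 c m P) = pr4 c m (pi P) :=
  hom_ext (pi.comp (pr5 c m)) ((pr4 c m).comp pi) (fun l => by cases l <;> simp [pi, pr5, pr4]) P

theorem pt_pr (P : R k A5) : pt (pr5 c m P) = pr4 c m (pt P) :=
  hom_ext (pt.comp (pr5 c m)) ((pr4 c m).comp pt) (fun l => by cases l <;> simp [pt, pr5, pr4]) P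

theorem ph_pr (P : R k A5) : ph (pr5 c m P) = pr4 c m (ph P) :=
  hom_ext (ph.comp (pr5 c m)) ((pr4 c m).comp ph) (fun l => by cases l <;> simp [ph, pr5, pr4]) P

theorem pr5_pr5 {c' : k} {m' : Fin 3 → Fin 3} (P : R k A5) :
    pr5 c m (pr5 c' m' P) = pr5 (c' * c) (m ∘ m') P :=
  hom_ext ((pr5 c m).comp (pr5 c' m')) _ (fun l => by cases l <;> simp [pr5, smul_smul]) P

theorem pr5_zero {m' : Fin 3 → Fin 3} (P : R k A5) : pr5 0 m P = pr5 0 m' P :=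
  hom_ext _ _ (fun l => by cases l <;> simp [pr5]) P

theorem top_pr4 {ρ ρ' : Fin 3 → Γ} (h : ∀ j, ρ (m j) = ρ' j) {γ : Γ} {P P0 : R k A4}
    (hP : Top (dF ρ') γ P P0) : Top (dF ρ) γ (pr4 c m P) (pr4 c m P0) := by
  refine Top.map_hm _ (fun l => ?_) hP
  rcases l.nt_or with hl | ⟨j, rfl⟩
  · rw [pr4_nt hl]
    exact Hm_cast (X_Hm (dF ρ) _) (by cases l <;> first | rfl | exact hl.elim)
  · rw [pr4_t]
    exact Submodule.smul_mem _ _ (Hm_cast (X_Hm (dF ρ) _) (h j))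

theorem hm_pr5 {ρ ρ' : Fin 3 → Γ} (h : ∀ j, ρ (m j) = ρ' j) {γ : Γ} {P : R k A5}
    (hP : P ∈ Hm k (d5 ρ') γ) : pr5 c m P ∈ Hm k (d5 ρ) γ := by
  refine (Top.map_hm _ (fun l => ?_) (Top.of_Hm hP)).1
  rcases l.nt_or with hl | ⟨j, rfl⟩
  · rw [pr5_nt hl]
    exact Hm_cast (X_Hm (d5 ρ) _) (d5_nt hl _ _)
  · rw [pr5_t]
    exact Submodule.smul_mem _ _ (Hm_cast (X_Hm (d5 ρ) _) (h j))

theorem pr5_ov (i : Fin 3) (P : R k A5) :
    pr5 c (fun _ => i) P ∈ Sup k (Ov {l | l.nt ∨ l = .t i}) := by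
  refine hom_Ov _ (fun l _ => ?_) (mem_Ov_univ P)
  rcases l.nt_or with hl | ⟨j, rfl⟩
  · rw [pr5_nt hl]
    exact X_mem (Or.inl hl)
  · rw [pr5_t]
    exact Submodule.smul_mem _ _ (X_mem (Or.inr rfl))

theorem ph_ov {S : Set A5} {T : Set A4} (h : ∀ l ∈ S, ∀ l' ∈ pl l, l' ∈ T) {P : R k A5}
    (hP : P ∈ Sup k (Ov S)) : ph P ∈ Sup k (Ov T) := by
  refine hom_Ov _ (fun l hl => ?_) hP
  have := h l hl
  cases l <;> simp only [ph, lf_X, pl, List.mem_cons, List.not_mem_nil, or_false, forall_eq_or_imp,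
    forall_eq] at this ⊢
  · exact Ov_mul_mem (X_mem this.1) (X_mem this.2)
  · exact Ov_mul_mem (X_mem this.1) (X_mem this.2)
  · exact X_mem this
  · exact X_mem this
  · exact X_mem this.1
  · exact X_mem this

theorem ph_has {i : Fin 3} {P : R k A5} (hP : P ∈ Sup k {u | .t i ∈ FreeMonoid.toList u}) :
    ph P ∈ Sup k {u | .t i ∈ FreeMonoid.toList u} := by
  refine map_mem ph.toLinearMap _ (fun u hu => ?_) hP
  obtain ⟨u1, u2, h⟩ := List.append_of_mem hu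
  have : u = FreeMonoid.ofList u1 * (FreeMonoid.of (.t i) * FreeMonoid.ofList u2) :=
    FreeMonoid.toList.injective (by simpa using h)
  rw [this, wd_mul, wd_mul, AlgHom.toLinearMap_apply, map_mul, map_mul, ← X.eq_def]
  refine Sup_mul (t := {u | .t i ∈ FreeMonoid.toList u})
    (fun _ _ _ hv => by simp [show _ ∈ FreeMonoid.toList _ from hv]) (mem_Ov_univ _)
    (Sup_mul (s := {FreeMonoid.of (.t i)})
      (fun _ hu _ _ => by simp [show _ = FreeMonoid.of _ from hu]) ?_ (mem_Ov_univ _))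
  rw [ph, lf_X]
  exact wd_mem rfl

/-- The endomorphism with parameter number `i` given by its values on the generators. -/
def ext (i : Fin 3) (ψ : A5 → R k A5) : R k A5 →ₐ[k] R k A5 := lf fun
  | .t j => X k (.t j)
  | l => pr5 1 (fun _ => i) (ψ l)

@[simp] theorem ext_t (i j : Fin 3) (ψ : A5 → R k A5) : ext i ψ (X k (.t j)) = X k (.t j) :=
  lf_X _ _

theorem ext_nt (i : Fin 3) (ψ : A5 → R k A5) {z : A5} (hz : z.nt) :
    ext i ψ (X k z) = pr5 1 (fun _ => i) (ψ z) := by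
  cases z <;> first | exact lf_X _ _ | exact hz.elim

/-- The top map into the free algebra on `a, b, s, w`. -/
def H (i : Fin 3) (φ : A5 → R k A5) : R k A5 →ₐ[k] R k A4 := ph.comp (ext i φ)

@[simp] theorem H_t (i j : Fin 3) (φ : A5 → R k A5) : H i φ (X k (.t j)) = X k (.t j) := by
  simp [H, ph]

theorem H_ov (i : Fin 3) (φ : A5 → R k A5) {z : A5} (hz : z.nt) :
    H i φ (X k z) ∈ Sup k (Ov {l | l.nt ∨ l = .t i}) := by
  rw [H, AlgHom.comp_apply, ext_nt i φ hz]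
  refine ph_ov (fun l hl l' hl' => ?_) (pr5_ov i _)
  cases l <;> cases l' <;> simp_all [pl, A4.nt, A5.nt]

/-- `φ` is the top part of the family `ψ` when the parameter has degree `r`. -/
structure TD (ψ φ : A5 → R k A5) (r : Γ) : Prop where
  rel : ψ .w = ψ .x1 * ψ .b - ψ .a * ψ .x2
  cu : ∀ z, z.nt → pi (pr5 0 id (ψ z)) = pi (X k z)
  top : ∀ z, z.nt → Top (dF fun _ => r) (d5 0 z) (pi (ψ z)) (pt (φ z))
  hm : ∀ z, z.nt → φ z ∈ Hm k (d5 fun _ => r) (d5 0 z)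

variable {ψ φ ψ' φ' : A5 → R k A5} {r r' : Γ} {ρ : Fin 3 → Γ} {i : Fin 3}

theorem TD.letter (h : TD ψ φ r) (hρ : ρ i = r) (l : A5) :
    Top (dF ρ) (d5 ρ l) (pi (ext i ψ (X k l))) (pt (ext i φ (X k l))) := by
  rcases l.nt_or with hl | ⟨j, rfl⟩
  · rw [ext_nt i ψ hl, ext_nt i φ hl, pi_pr, pt_pr, d5_nt hl ρ 0]
    exact top_pr4 (fun _ => hρ) (h.top l hl)
  · simp only [ext_t]
    exact top_pi (Top.of_Hm (X_Hm _ _))

theorem TD.ext_hm (h : TD ψ φ r) (hρ : ρ i = r) {z : A5} (hz : z.nt) :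
    ext i φ (X k z) ∈ Hm k (d5 ρ) (d5 0 z) := by
  rw [ext_nt i φ hz]
  exact hm_pr5 (fun _ => hρ) (h.hm z hz)

theorem TD.H_hm (h : TD ψ φ r) (hρ : ρ i = r) {z : A5} (hz : z.nt) :
    H i φ (X k z) ∈ Hm k (d4 ρ) (d5 0 z) := ph_Hm (h.ext_hm hρ hz)

theorem TD.rel1 (h : TD ψ φ r) (i : Fin 3) : Rel 1 (pi.comp (ext i ψ)) := by
  simp [Rel, ext_nt, A5.nt, h.rel]

theorem TD.rel0 (h : TD ψ φ r) (i : Fin 3) : Rel 0 (pt.comp (ext i φ)) := by
  have h1 := (h.letter (ρ := fun _ => r) (i := i) rfl .x1).mul (h.letter (i := i) rfl .b)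
  have h2 := (h.letter (ρ := fun _ => r) (i := i) rfl .a).mul (h.letter (i := i) rfl .x2)
  have h3 := h.rel1 i
  rw [show d5 (fun _ => r) .a + d5 (fun _ => r) .x2 = d5 (fun _ => r) .x1 + d5 (fun _ => r) .b by
    simp [d5, mk_add]] at h2
  have h4 := h2.add (Top.of_Lt (Le_Lt (by
    simp only [d5, mk_add]
    simp [All.mk, Prod.Lex.toLex_lt_toLex])
    (h.letter (ρ := fun _ => r) (i := i) rfl .w).le))
  simp only [Rel, AlgHom.comp_apply, one_smul, zero_smul] at h3 ⊢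
  rw [← h3] at h4
  exact h1.unique h4

theorem TD.relH (h : TD ψ φ r) (i : Fin 3) : Rel 0 (H i φ) := by
  have := rel_ph.eq (P := ext i φ (X k .x1) * ext i φ (X k .b))
    (Q := ext i φ (X k .a) * ext i φ (X k .x2)) (by simpa [Rel] using h.rel0 i)
  simpa [Rel, H] using this

theorem TD.map (h : TD ψ φ r) (hρ : ρ i = r) {γ : Γ} {P Q0 : R k A5}
    (hP : Top (dF ρ) γ (pi P) (pt Q0)) : Top (dF ρ) γ (pi (ext i ψ P)) (pt (ext i φ Q0)) := by
  obtain ⟨Q, hQ, h1⟩ := nf 1 P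
  rw [h1 pi rel_pi] at hP
  obtain ⟨Q1, h2⟩ := exists_lift hQ hP.le
  have h3 := Top.map (pi.comp (ext i ψ)) (pt.comp (ext i φ)) (h.letter hρ) h2
  rwa [← h1 _ (h.rel1 i), (h.rel0 i).eq ((top_pi h2).unique hP)] at h3

theorem TD.H_cu (h : TD ψ φ r) (i : Fin 3) {z : A5} (hz : z.nt) :
    ph (pr5 0 id (ext i φ (X k z))) = ph (X k z) := by
  have h1 := top_pr4 (c := (0 : k)) (m := id) (ρ := fun _ => r) (fun _ => rfl)
    (h.letter (ρ := fun _ => r) (i := i) rfl z)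
  rw [← pi_pr, ← pt_pr, ext_nt i ψ hz, pr5_pr5, mul_zero, pr5_zero (m' := id), h.cu z hz] at h1
  exact rel_ph.eq (h1.unique (top_pi (Top.of_Hm (X_Hm _ _))))

theorem dg_add {L : Type} (e e' : L → ℚ) (u : FreeMonoid L) :
    dg (fun l => e l + e' l) u = dg e u + dg e' u := by
  induction u using FreeMonoid.inductionOn' with
  | one => simp
  | of_mul l u ih => simp [ih]; ring

theorem TD.H_sub (h : TD ψ φ r) (i : Fin 3) {z : A5} (hz : z.nt) :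
    ∃ N, H i φ (X k z) = ph (X k z) + ph N ∧ N ∈ Hm k (d5 fun _ => r) (d5 0 z) ∧
      N ∈ Sup k {u | .t i ∈ FreeMonoid.toList u} ∧ N ∈ Sup k (Ov {l | l.nt ∨ l = .t i}) := by
  have h1 := sub_kill_mem (S := {l : A5 | l.nt}) (pr5 (0 : k) id) (fun l hl => pr5_nt hl)
    (fun l hl => by
      obtain ⟨j, rfl⟩ := l.nt_or.resolve_left hl
      simp) (ext i φ (X k z))
  have h2 : ext i φ (X k z) ∈ Sup k (Ov {l | l.nt ∨ l = .t i}) := by
    rw [ext_nt i φ hz]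
    exact pr5_ov i _
  refine ⟨_, by rw [map_sub, h.H_cu i hz]; simp [H],
    Sup_mono (fun u hu => mem_Sup.1 (h.ext_hm rfl hz) u hu.2) h1, Sup_mono (fun u hu => ?_) h1,
    Sup_mono (fun u hu => mem_Sup.1 h2 u hu.2) h1⟩
  by_contra hc
  exact hu.1 fun l hl => (mem_Sup.1 h2 u hu.2 l hl).resolve_right fun e => hc (e ▸ hl)

theorem TD.H_has (h : TD ψ φ r) (i : Fin 3) {z : A5} (hz : z.nt) :
    H i φ (X k z) - ph (X k z) ∈ Sup k {u | .t i ∈ FreeMonoid.toList u} := by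
  obtain ⟨N, h1, -, h2, -⟩ := h.H_sub i hz
  simpa [h1] using ph_has h2

theorem TD.facet (h : TD ψ φ r) (i : Fin 3) (f : Γ →+ ℚ) (hf : ∀ l, 0 ≤ f (d5 0 l)) (hr : 0 < f r)
    {z : A5} (hz : z.nt) : ∃ N, H i φ (X k z) = ph (X k z) + ph N ∧
      N ∈ Sup k (Ov {l | f (d5 0 l) < f (d5 0 z)}) := by
  obtain ⟨N, h1, h2, h3, h4⟩ := h.H_sub i hz
  refine ⟨N, h1, mem_Sup.2 fun u hu l hl => ?_⟩
  have e1 : dg (d5 fun _ => r) u = d5 0 z := mem_Sup.1 h2 u hu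
  have e2 : ∀ l, f (d5 (fun _ => r) l) = f (d5 0 l) + f (d5 (fun _ => r) l - d5 0 l) := by simp
  have e3 := congrArg f e1
  rw [dg_map, funext e2, dg_add] at e3
  have e4 := (dg_nonneg (e := fun l => f (d5 0 l)) (u := u) fun l _ => hf l).2 l hl
  have e5 := (dg_nonneg (e := fun l => f (d5 (fun _ => r) l - d5 0 l)) (u := u) fun l _ => by
    cases l <;> simp [d5, hr.le]).2 _ (mem_Sup.1 h3 u hu)
  rw [show d5 (fun _ => r) (.t i) - d5 0 (.t i) = r by simp [d5]] at e5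
  change f (d5 0 l) < f (d5 0 z)
  linarith

theorem TD.fixes (h : TD ψ φ r) (i : Fin 3) (f : Γ →+ ℚ) (hf : ∀ l, 0 ≤ f (d5 0 l)) (hr : 0 < f r)
    {z : A5} (hz : z.nt) (h0 : f (d5 0 z) = 0) : H i φ (X k z) = ph (X k z) := by
  obtain ⟨N, h1, h2⟩ := h.facet i f hf hr hz
  have h3 := h.H_has i hz
  have h4 : ph N ∈ Sup k (Ov ∅) := ph_ov (fun l hl => absurd (hf l) (by simpa [h0] using hl)) h2
  rw [h1, add_sub_cancel_left] at h3
  rw [h1, Sup_eq_zero h3 h4 fun u hu hu' => hu' _ hu, add_zero]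

theorem TD.comm (h : TD ψ φ r) (h' : TD ψ' φ' r')
    (hc : ∀ z, z.nt → ext 0 ψ (ext 1 ψ' (X k z)) = ext 1 ψ' (ext 0 ψ (X k z)))
    {z : A5} (hz : z.nt) : H 0 φ (ext 1 φ' (X k z)) = H 1 φ' (ext 0 φ (X k z)) := by
  have h1 := h.map (ρ := ![r, r', r]) (i := 0) rfl (h'.letter (i := 1) rfl z)
  have h2 := h'.map (ρ := ![r, r', r]) (i := 1) rfl (h.letter (i := 0) rfl z)
  rw [hc z hz] at h1
  exact rel_ph.eq (h1.unique h2)

theorem TD.coact (h : TD ψ φ r)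
    (hc : ∀ z, z.nt → ext i ψ (ext i ψ (X k z)) = pr5 2 id (ext i ψ (X k z)))
    {z : A5} (hz : z.nt) : H i φ (ext i φ (X k z)) = pr4 2 id (H i φ (X k z)) := by
  have h1 := h.map (ρ := fun _ => r) (i := i) rfl (h.letter (i := i) rfl z)
  have h2 := top_pr4 (c := (2 : k)) (m := id) (ρ := fun _ => r) (fun _ => rfl)
    (h.letter (ρ := fun _ => r) (i := i) rfl z)
  rw [hc z hz, pi_pr] at h1
  have h3 := h1.unique h2
  rw [← pt_pr] at h3
  exact (rel_ph.eq h3).trans (ph_pr _)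

theorem dg_dF (r : Γ) (u : FreeMonoid A4) : dg (dF fun _ => r) u =
    dg (dF 0) u + dg (fun l : A4 => match l with | .t _ => (1 : ℕ) | _ => 0) u • r := by
  induction u using FreeMonoid.inductionOn' with
  | one => simp
  | of_mul l u ih =>
    simp only [dg_mul, dg_of, ih, add_smul]
    cases l <;> simp [dF] <;> abel

theorem exists_TD (rel : ψ .w = ψ .x1 * ψ .b - ψ .a * ψ .x2)
    (cu : ∀ z, z.nt → pi (pr5 0 id (ψ z)) = pi (X k z))
    (one : ∀ z, z.nt → pr5 1 (fun _ => 0) (ψ z) = ψ z)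
    (hn : ∃ z, z.nt ∧ pi (ψ z) ≠ pi (X k z)) :
    ∃ φ r, TD ψ φ r ∧ ∃ z, z.nt ∧ ∀ i, H i φ (X k z) ≠ ph (X k z) := by
  classical
  let n : FreeMonoid A4 → ℕ := dg (fun l : A4 => match l with | .t _ => (1 : ℕ) | _ => 0)
  have hn1 : ∀ u, u ∉ Ov {l : A4 | l.nt} → n u ≠ 0 := by
    intro u
    induction u using FreeMonoid.inductionOn' with
    | one => exact fun hu => absurd (Ov_one _) hu
    | of_mul l u ih =>
      intro hu h0
      simp only [n, dg_mul, dg_of, Nat.add_eq_zero_iff] at h0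
      refine ih (fun h => hu (Ov_mul.2 ⟨Ov_of.2 ?_, h⟩)) h0.2
      cases l <;> simp_all [A4.nt]
  have hsm : ∀ (a : ℕ) (x : Γ), a ≠ 0 → a • ((a : ℚ)⁻¹ • x) = x := fun a x ha => by
    rw [← Nat.cast_smul_eq_nsmul ℚ, smul_inv_smul₀ (by exact_mod_cast ha)]
  have hk : ∀ z, z.nt → pi (ψ z) - pi (X k z) ∈
      Sup k ((Ov {l : A4 | l.nt})ᶜ ∩ {u | (pi (ψ z)).coeff u ≠ 0}) := by
    intro z hz
    rw [← cu z hz, pi_pr]
    exact sub_kill_mem (pr4 (0 : k) id) (fun l hl => pr4_nt hl) (fun l hl => by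
      obtain ⟨j, rfl⟩ := l.nt_or.resolve_left hl
      simp) _
  let T : Finset (Σ _ : A5, FreeMonoid A4) :=
    (Finset.univ.filter A5.nt).sigma fun z => (pi (ψ z) - pi (X k z)).coeff.support
  obtain ⟨⟨z0, u0⟩, h0, hmin⟩ := T.exists_min_image
    (fun p => (n p.2 : ℚ)⁻¹ • (d5 0 p.1 - dg (dF 0) p.2)) (by
      obtain ⟨z, hz, hz'⟩ := hn
      obtain ⟨u, hu⟩ := exists_coeff (sub_ne_zero.2 hz')
      exact ⟨⟨z, u⟩, Finset.mem_sigma.2 ⟨by simpa using hz, Finsupp.mem_support_iff.2 hu⟩⟩)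
  set r := (n u0 : ℚ)⁻¹ • (d5 0 z0 - dg (dF 0) u0) with hr
  have hX : ∀ z, z.nt → Top (dF fun _ => r) (d5 0 z) (pi (X k z)) (pt (X k z)) := fun z hz =>
    top_pi (Top.of_Hm (Hm_cast (X_Hm _ z) (d5_nt hz _ _)))
  have hle : ∀ z, z.nt → pi (ψ z) ∈ Le k (dF fun _ => r) (d5 0 z) := by
    intro z hz
    rw [← sub_add_cancel (pi (ψ z)) (pi (X k z))]
    refine add_mem (mem_Sup.2 fun u hu => ?_) (hX z hz).le
    have h1 := hmin ⟨z, u⟩ (Finset.mem_sigma.2 ⟨by simpa using hz, Finsupp.mem_support_iff.2 hu⟩)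
    have h2 := hn1 u (mem_Sup.1 (hk z hz) u hu).1
    have h3 := nsmul_le_nsmul_right h1 (n u)
    rw [hsm _ _ h2] at h3
    change dg (dF fun _ => r) u ≤ d5 0 z
    rw [dg_dF]
    exact le_sub_iff_add_le'.1 h3
  have hex : ∀ z, ∃ Q0, z.nt → Top (dF fun _ => r) (d5 0 z) (pi (ψ z)) (pt Q0) ∧
      Q0 ∈ Hm k (d5 fun _ => r) (d5 0 z) := by
    intro z
    by_cases hz : z.nt
    · obtain ⟨Q, hQ, h1⟩ := nf 1 (ψ z)
      obtain ⟨Q0, h2⟩ := exists_lift hQ (h1 pi rel_pi ▸ hle z hz)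
      exact ⟨Q0, fun _ => ⟨h1 pi rel_pi ▸ top_pi h2, h2.1⟩⟩
    · exact ⟨0, fun h => absurd h hz⟩
  choose φ hφ using hex
  obtain ⟨hz0, hu0⟩ := Finset.mem_sigma.1 h0
  have hz0 : z0.nt := by simpa using hz0
  have hu0 := Finsupp.mem_support_iff.1 hu0
  have hT : TD ψ φ r := ⟨rel, cu, fun z hz => (hφ z hz).1, fun z hz => (hφ z hz).2⟩
  refine ⟨φ, r, hT, z0, hz0, fun i hi => ?_⟩
  have h1 := hT.letter (ρ := fun _ => r) (i := 0) rfl z0
  have h2 : ph (ext 0 φ (X k z0)) = ph (X k z0) := by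
    have h3 := congrArg (pr4 1 fun _ => 0) hi
    rw [H, AlgHom.comp_apply, ← ph_pr, ← ph_pr, ext_nt i φ hz0, pr5_pr5, pr5_nt hz0, mul_one] at h3
    rw [ext_nt 0 φ hz0]
    exact h3
  rw [pt_of_ph h2, ext_nt 0 ψ hz0, one z0 hz0, d5_nt hz0 _ 0] at h1
  have h4 := (h1.sub (hX z0 hz0)).2
  rw [sub_self, sub_zero] at h4
  have h5 : dg (dF fun _ => r) u0 < d5 0 z0 := mem_Sup.1 h4 u0 hu0
  rw [dg_dF, hr, hsm _ _ (hn1 u0 (mem_Sup.1 (hk z0 hz0) u0 hu0).1)] at h5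
  simp at h5

end

end Pool.Agent.Lib.MP_1cf7f7_al.All
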