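import Pool.Agent.Lib.MP_1cf7f7_al.All.Tops

/-! The possible shapes of a top map. -/

namespace Pool.Agent.Lib.MP_1cf7f7_al.All

noncomputable section

variable {k : Type} [Field k] {ψ φ : A5 → R k A5} {r : Γ} {i : Fin 3}

theorem fa_nn (l : A5) : 0 ≤ fa (d5 0 l) := by cases l <;> simp [d5]
theorem fb_nn (l : A5) : 0 ≤ fb (d5 0 l) := by cases l <;> simp [d5]
theorem fs_nn (l : A5) : 0 ≤ fs (d5 0 l) := by cases l <;> simp [d5]
theorem fw_nn (l : A5) : 0 ≤ fw (d5 0 l) := by cases l <;> simp [d5]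

@[simp] theorem ph_x1 : ph (X k .x1) = X k .a * X k .s := lf_X _ _
@[simp] theorem ph_x2 : ph (X k .x2) = X k .s * X k .b := lf_X _ _
@[simp] theorem ph_a : ph (X k .a) = X k .a := lf_X _ _
@[simp] theorem ph_b : ph (X k .b) = X k .b := lf_X _ _
@[simp] theorem ph_w : ph (X k .w) = X k .w := lf_X _ _
@[simp] theorem ph_t (j : Fin 3) : ph (X k (.t j)) = X k (.t j) := lf_X _ _

theorem TD.triv_fa (h : TD ψ φ r) (i : Fin 3) (hr : 0 < fa r) (z : A5) (hz : z.nt) :
    H i φ (X k z) = ph (X k z) := by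
  have hb := h.fixes i fa fa_nn hr (z := .b) trivial (by simp [d5])
  have hw := h.fixes i fa fa_nn hr (z := .w) trivial (by simp [d5])
  have h2 := h.fixes i fa fa_nn hr (z := .x2) trivial (by simp [d5])
  obtain ⟨N, h1, hN⟩ := h.facet i fa fa_nn hr (z := .x1) trivial
  have e := h.relH i
  rw [Rel, zero_smul, add_zero, hb, h2, h1, ph_b, ph_x2, ← mul_assoc] at e
  have e2 : ph N = (H i φ (X k .a) - X k .a) * X k .s := by
    rw [sub_mul, ← mul_right_cancel₀ (X_ne_zero _) e]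
    simp
  have e3 : ph N ∈ Sup k {u | (FreeMonoid.toList u).getLast? ≠ some .s} := by
    refine hom_mem (by simp) (fun u hu v hv => ?_) ph (fun l hl => ?_) hN
    · simp only [Set.mem_ofPred_eq, FreeMonoid.toList_mul, List.getLast?_append] at *
      cases h : (FreeMonoid.toList v).getLast? <;> simp_all
    · cases l <;> simp only [ph_x1, ph_x2, ph_a, ph_b, ph_w, ph_t] <;>
        simp only [X, ← wd_mul] <;>
        first | (simp [d5] at hl; done) | exact wd_mem (by simp)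
  have e4 : ph N = 0 := Sup_eq_zero e3 (t := {u | (FreeMonoid.toList u).getLast? = some A4.s})
    (e2 ▸ Sup_mul (t := {FreeMonoid.of A4.s}) (fun u _ v hv => by simp [show v = _ from hv])
      (mem_Ov_univ _) (wd_mem rfl)) fun u h h' => h h'
  have ha := sub_eq_zero.1 ((mul_eq_zero.1 (e2.symm.trans e4)).resolve_right (X_ne_zero _))
  cases z <;> first | exact hz.elim | simp_all

theorem TD.triv_fb (h : TD ψ φ r) (i : Fin 3) (hr : 0 < fb r) (z : A5) (hz : z.nt) :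
    H i φ (X k z) = ph (X k z) := by
  have ha := h.fixes i fb fb_nn hr (z := .a) trivial (by simp [d5])
  have hw := h.fixes i fb fb_nn hr (z := .w) trivial (by simp [d5])
  have h2 := h.fixes i fb fb_nn hr (z := .x1) trivial (by simp [d5])
  obtain ⟨N, h1, hN⟩ := h.facet i fb fb_nn hr (z := .x2) trivial
  have e := h.relH i
  rw [Rel, zero_smul, add_zero, ha, h2, h1, ph_a, ph_x1, mul_assoc] at e
  have e2 : ph N = X k .s * (H i φ (X k .b) - X k .b) := by
    rw [mul_sub, mul_left_cancel₀ (X_ne_zero _) e]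
    simp
  have e3 : ph N ∈ Sup k {u | (FreeMonoid.toList u).head? ≠ some .s} := by
    refine hom_mem (by simp) (fun u hu v hv => ?_) ph (fun l hl => ?_) hN
    · simp only [Set.mem_ofPred_eq, FreeMonoid.toList_mul, List.head?_append] at *
      cases h : (FreeMonoid.toList u).head? <;> simp_all
    · cases l <;> simp only [ph_x1, ph_x2, ph_a, ph_b, ph_w, ph_t] <;>
        simp only [X, ← wd_mul] <;>
        first | (simp [d5] at hl; done) | exact wd_mem (by simp)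
  have e4 : ph N = 0 := Sup_eq_zero e3 (t := {u | (FreeMonoid.toList u).head? = some A4.s})
    (e2 ▸ Sup_mul (s := {FreeMonoid.of A4.s}) (fun u hu v _ => by simp [show u = _ from hu])
      (wd_mem rfl) (mem_Ov_univ _)) fun u h h' => h h'
  have hb := sub_eq_zero.1 ((mul_eq_zero.1 (e2.symm.trans e4)).resolve_left (X_ne_zero _))
  cases z <;> first | exact hz.elim | simp_all

/-- `Φ` adds to the letter `y` a nonzero element free of `y` whose words contain parameter `i`. -/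
structure Shift (y : A4) (i : Fin 3) (Φ : R k A4 →ₐ[k] R k A4) (m : R k A4) : Prop where
  ne : m ≠ 0
  has : m ∈ Sup k {u | .t i ∈ FreeMonoid.toList u}
  free : m ∈ Sup k (Ov {l | l ≠ y})
  eq : Φ (X k y) = X k y + m
  fix : ∀ l, l ≠ y → Φ (X k l) = X k l

theorem Shift.fixed {y : A4} {Φ : R k A4 →ₐ[k] R k A4} {m P : R k A4} (h : Shift y i Φ m)
    (hy : y ≠ .t i) (hP : P ∈ Sup k (Ov {l | l ≠ .t i})) (hf : Φ P = P) :
    P ∈ Sup k (Ov {l | l ≠ y}) := fix_free hy Φ h.eq h.fix h.ne h.has h.free hP hf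

theorem exists_shift (y : A4) (m : R k A4) : ∃ Φ : R k A4 →ₐ[k] R k A4,
    Φ (X k y) = X k y + m ∧ ∀ l, l ≠ y → Φ (X k l) = X k l :=
  ⟨lf fun l => if l = y then X k y + m else X k l, by simp, fun l hl => by simp [hl]⟩

theorem TD.typeX (h : TD ψ φ r) (hr : 0 < fs r) (hn : ∃ z, z.nt ∧ H i φ (X k z) ≠ ph (X k z)) :
    ∃ Φ m, Shift .s i Φ m ∧ ∀ P, H i φ P = Φ (ph P) := by
  have ha := h.fixes i fs fs_nn hr (z := .a) trivial (by simp [d5])
  have hb := h.fixes i fs fs_nn hr (z := .b) trivial (by simp [d5])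
  have hw := h.fixes i fs fs_nn hr (z := .w) trivial (by simp [d5])
  obtain ⟨N, h1, hN⟩ := h.facet i fs fs_nn hr (z := .x1) trivial
  have h2 := h.H_has i (z := .x1) trivial
  rw [h1, add_sub_cancel_left] at h2
  have h3 : ph N ∈ Sup k (Ov {l | l ≠ .s}) :=
    ph_ov (fun l hl => by cases l <;> simp_all [d5, pl]) hN
  have e := h.relH i
  rw [Rel, zero_smul, add_zero, ha, hb, h1, ph_a, ph_b, ph_x1] at e
  obtain ⟨m, hm⟩ := left_div (P := ph N) (Y := X k A4.b) (a := A4.a)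
    (Z := H i φ (X k .x2) - X k .s * X k .b) (by rw [mul_sub, ← e]; noncomm_ring) (X_ne_zero _)
    (Sup_mono (fun u hu h => by simp [h] at hu) h2)
  have h4 : H i φ (X k .x2) = (X k .s + m) * X k .b :=
    mul_left_cancel₀ (X_ne_zero A4.a) (by rw [← e, hm]; noncomm_ring)
  obtain ⟨Φ, e1, e2⟩ := exists_shift .s m
  refine ⟨Φ, m, ⟨?_, ?_, ?_, e1, e2⟩, hom_ext _ (Φ.comp ph) fun l => ?_⟩
  · rintro rfl
    obtain ⟨z, hz, hz'⟩ := hn
    cases z <;> first | exact hz.elim | simp_all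
  · exact Sup_mono (fun u hu => by simpa using hu) (mem_of_X_mul (hm ▸ h2))
  · exact Sup_mono (fun u hu => (Ov_mul.1 hu).2) (mem_of_X_mul (hm ▸ h3))
  · cases l <;> simp [ha, hb, hw, h1, h4, hm, e1, e2, mul_add]

theorem TD.typeW (h : TD ψ φ r) (hr : 0 < fw r) (hn : ∃ z, z.nt ∧ H i φ (X k z) ≠ ph (X k z)) :
    ∃ Φ m, Shift .w i Φ m ∧ ∀ P, H i φ P = Φ (ph P) := by
  have ha := h.fixes i fw fw_nn hr (z := .a) trivial (by simp [d5])
  have hb := h.fixes i fw fw_nn hr (z := .b) trivial (by simp [d5])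
  have hx1 := h.fixes i fw fw_nn hr (z := .x1) trivial (by simp [d5])
  have hx2 := h.fixes i fw fw_nn hr (z := .x2) trivial (by simp [d5])
  obtain ⟨N, h1, hN⟩ := h.facet i fw fw_nn hr (z := .w) trivial
  have h2 := h.H_has i (z := .w) trivial
  rw [h1, add_sub_cancel_left] at h2
  obtain ⟨Φ, e1, e2⟩ := exists_shift .w (ph N)
  refine ⟨Φ, ph N, ⟨fun h0 => ?_, h2, ph_ov (fun l hl => by cases l <;> simp_all [d5, pl]) hN,
    e1, e2⟩, hom_ext _ (Φ.comp ph) fun l => ?_⟩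
  · obtain ⟨z, hz, hz'⟩ := hn
    cases z <;> first | exact hz.elim | simp_all
  · cases l <;> simp [ha, hb, hx1, hx2, h1, e1, e2]

/-- A section of `ph` on elements free of `s`. -/
def back : R k A4 →ₐ[k] R k A5 := lf fun
  | .a => X k .a | .b => X k .b | .s => 0 | .w => X k .w | .t j => X k (.t j)

theorem ph_back {P : R k A4} (hP : P ∈ Sup k (Ov {l | l ≠ .s})) : ph (back P) = P :=
  hom_fix (ph.comp back) (fun l hl => by cases l <;> simp_all [back]) hP

/-- Letter degrees in the free algebra on `a, b, s, w`. -/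
def ee (r : Γ) (j l : A4) : ℚ :=
  match j with
  | .a => fa (d4 (fun _ => r) l)
  | .b => fb (d4 (fun _ => r) l)
  | .s => fs (d4 (fun _ => r) l)
  | .w => fw (d4 (fun _ => r) l)
  | .t _ => 0

theorem Hm_ee {P : R k A4} {z : A4} (h : P ∈ Hm k (d4 fun _ => r) (d4 (fun _ => r) z)) (j : A4) :
    P ∈ Hm k (ee r j) (ee r j z) := by
  refine Sup_mono (fun u hu => ?_) h
  have e : dg (d4 fun _ => r) u = d4 (fun _ => r) z := hu
  change dg (ee r j) u = ee r j z
  cases j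
  · exact (dg_map fa _ u).symm.trans (congrArg fa e)
  · exact (dg_map fb _ u).symm.trans (congrArg fb e)
  · exact (dg_map fs _ u).symm.trans (congrArg fs e)
  · exact (dg_map fw _ u).symm.trans (congrArg fw e)
  · exact (dg_map (0 : Γ →+ ℚ) (d4 fun _ => r) u).symm

theorem rigid4 (S : Finset A4) (hS : ∀ z ∈ S, z.nt) (Φ : R k A4 →ₐ[k] R k A4)
    (hr : ∀ j ∈ S, ee r j (.t i) ≤ 0) (h1 : Φ (X k (.t i)) = X k (.t i))
    (h2 : ∀ z ∈ S, Φ (X k z) ∈ Sup k (Ov (insert (.t i) S : Finset A4)))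
    (h3 : ∀ z ∈ S, Φ (X k z) ∈ Hm k (d4 fun _ => r) (d4 (fun _ => r) z))
    (h4 : ∀ z ∈ S, Φ (X k z) - X k z ∈ Sup k {u | .t i ∈ FreeMonoid.toList u})
    (h5 : ∀ z ∈ S, Φ (Φ (X k z)) = pr4 2 id (Φ (X k z))) : ∀ z ∈ S, Φ (X k z) = X k z :=
  rigid S (τ := .t i) (fun h => hS _ h) Φ (pr4 2 id) (ee r) (fun j hj l hl => by
    have := hS j hj
    have := hS l hl
    cases j <;> cases l <;> simp_all [ee, d4, A4.nt]) hr h1 h2
    (fun z hz j _ => Hm_ee (h3 z hz) j) h4 (pr4_t i) (fun z hz => pr4_nt (hS z hz)) h5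

theorem Hm_le {f : Γ →+ ℚ} {P : R k A4} {γ : Γ} {ρ : Fin 3 → Γ} {S : Set A4} (h0 : P ≠ 0)
    (h : P ∈ Hm k (d4 ρ) γ) (hS : P ∈ Sup k (Ov S)) (hf : ∀ l ∈ S, f (d4 ρ l) ≤ 0)
    (hi : P ∈ Sup k {u | .t i ∈ FreeMonoid.toList u}) : f γ ≤ f (ρ i) := by
  obtain ⟨u, hu⟩ := exists_coeff h0
  rw [← show dg (d4 ρ) u = γ from mem_Sup.1 h u hu, dg_map]
  exact (dg_nonpos fun l hl => hf l (mem_Sup.1 hS u hu l hl)).2 _ (mem_Sup.1 hi u hu)

end

end Pool.Agent.Lib.MP_1cf7f7_al.All
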